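import Pool.Agent.U527.Rd.Ind

set_option autoImplicit false

/-!
# Families of lines through a fixed subspace are reducible
-/

open MeasureTheory Set Filter Topology ENNReal NNReal Metric

namespace Pool.Agent.U527.Rd

open Pool.Agent.H742R2.Kk

/-- An isometry whose inverse maps the subspace `V` of codimension at least two into the subspace
where the first two coordinates vanish. -/
theorem exists_isom {k : ℕ} (V : Submodule ℝ (E (k + 2))) (hV : Module.finrank ℝ V ≤ k) :
    ∃ U : E (k + 2) ≃ₗᵢ[ℝ] E (k + 2), ∀ v ∈ V, (U.symm v) 0 = 0 ∧ (U.symm v) 1 = 0 := by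
  classical
  have hd : 2 ≤ Module.finrank ℝ Vᗮ := by
    have h1 := V.finrank_add_finrank_orthogonal
    have h2 : Module.finrank ℝ (E (k + 2)) = k + 2 := by simp
    omega
  set b := stdOrthonormalBasis ℝ Vᗮ with hb
  set i0 : Fin (Module.finrank ℝ Vᗮ) := ⟨0, by omega⟩ with hi0
  set i1 : Fin (Module.finrank ℝ Vᗮ) := ⟨1, by omega⟩ with hi1
  have h01 : i0 ≠ i1 := by simp [hi0, hi1]
  set u : Fin (k + 2) → E (k + 2) := fun i =>
    if i = 0 then (b i0 : E (k + 2)) else (b i1 : E (k + 2)) with hu
  have hu0 : u 0 = (b i0 : E (k + 2)) := by simp [hu]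
  have hu1 : u 1 = (b i1 : E (k + 2)) := by simp [hu]
  have hbo := b.orthonormal
  have hbb : ∀ s t, (inner ℝ (b s : E (k + 2)) (b t : E (k + 2)) : ℝ) = if s = t then 1 else 0 := by
    intro s t
    have := (orthonormal_iff_ite.1 hbo) s t
    simpa using this
  have hin : ∀ i ∈ ({0, 1} : Set (Fin (k + 2))), ∀ j ∈ ({0, 1} : Set (Fin (k + 2))),
      (inner ℝ (u i) (u j) : ℝ) = if i = j then 1 else 0 := by
    intro i hi j hj
    have h10 : (1 : Fin (k + 2)) ≠ 0 := by simp
    rcases hi with rfl | hi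
    · rcases hj with rfl | hj
      · rw [hu0, hbb]; simp
      · have : j = 1 := hj
        subst this
        rw [hu0, hu1, hbb, if_neg h01, if_neg h10.symm]
    · have : i = 1 := hi
      subst this
      rcases hj with rfl | hj
      · rw [hu0, hu1, hbb, if_neg h01.symm, if_neg h10]
      · have : j = 1 := hj
        subst this
        rw [hu1, hbb]; simp
  have hon : Orthonormal ℝ (({0, 1} : Set (Fin (k + 2))).domRestrict u) := by
    refine orthonormal_iff_ite.2 (fun i j => ?_)
    have := hin i i.2 j j.2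
    rw [Set.domRestrict_apply, Set.domRestrict_apply, this]
    simp [Subtype.ext_iff]
  obtain ⟨B, hB⟩ := hon.exists_orthonormalBasis_extension_of_card_eq (by simp)
  refine ⟨B.repr.symm, ?_⟩
  intro v hv
  have h : ∀ i ∈ ({0, 1} : Set (Fin (k + 2))), (B.repr v) i = 0 := by
    intro i hi
    rw [OrthonormalBasis.repr_apply_apply, hB i hi]
    rcases hi with rfl | hi
    · rw [hu0]
      exact Submodule.inner_left_of_mem_orthogonal hv (b i0).2
    · have : i = 1 := hi
      subst this
      rw [hu1]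
      exact Submodule.inner_left_of_mem_orthogonal hv (b i1).2
  refine ⟨?_, ?_⟩
  · simpa using h 0 (by simp)
  · simpa using h 1 (by simp)

/-- The map `v ↦ (0, z)` if `U⁻¹ v = (y, y', z)`. -/
noncomputable def dropMap {k : ℕ} (U : E (k + 2) ≃ₗᵢ[ℝ] E (k + 2)) : E (k + 2) →ₗ[ℝ] E (k + 1) where
  toFun v := ins 0 (tl (tl (U.symm v)))
  map_add' v w := by
    ext i
    refine Fin.cases ?_ (fun i => ?_) i
    · simp [ins]
    · simp [ins, tl]
  map_smul' c v := by
    ext i
    refine Fin.cases ?_ (fun i => ?_) i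
    · simp [ins]
    · simp [ins, tl]

theorem emb_drop {k : ℕ} (U : E (k + 2) ≃ₗᵢ[ℝ] E (k + 2)) (θ : ℝ) {v : E (k + 2)}
    (h0 : (U.symm v) 0 = 0) (h1 : (U.symm v) 1 = 0) : emb θ 0 (dropMap U v) = U.symm v := by
  ext i
  refine Fin.cases ?_ (fun i => ?_) i
  · simp [emb, dropMap, ins, h0]
  · refine Fin.cases ?_ (fun i => ?_) i
    · have : (Fin.succ 0 : Fin (k + 2)) = 1 := rfl
      simp [emb, dropMap, ins, h1, this]
    · simp [emb, dropMap, ins, tl]

/-- **Lines through a fixed subspace of dimension at most `q`.** -/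
theorem red_plane {q : ℕ} (m : ℕ) (V : Submodule ℝ (E (m + 1))) (hV : Module.finrank ℝ V ≤ q)
    (a : E (m + 1) → E (m + 1)) (ha : Measurable a) (haV : ∀ e, a e ∈ V) : RedTo q m a := by
  induction m with
  | zero => exact ha
  | succ k ih =>
    refine ⟨ha, fun hq => ?_⟩
    obtain ⟨U, hU⟩ := exists_isom V (le_trans hV (by omega))
    refine ⟨U, fun θ => ⟨0, fun e => dropMap U (a (U (emb θ 0 e))), ?_, ?_⟩⟩
    · refine ih (V.map (dropMap U)) (le_trans (Submodule.finrank_map_le _ _) hV) _ ?_ ?_
      · have h1 : Continuous (dropMap U) := LinearMap.continuous_of_finiteDimensional _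
        have h2 : Measurable (fun e : E (k + 1) => U (emb θ 0 e)) :=
          U.continuous.measurable.comp (measurable_emb.comp (by fun_prop :
            Measurable (fun e : E (k + 1) => (θ, ((0 : ℝ), e)))))
        exact h1.measurable.comp (ha.comp h2)
      · intro e
        exact ⟨_, haV _, rfl⟩
    · intro e he he0
      refine ⟨0, ?_⟩
      obtain ⟨h0, h1⟩ := hU _ (haV (U (emb θ 0 e)))
      rw [zero_smul, add_zero, emb_drop U θ h0 h1, LinearIsometryEquiv.apply_symm_apply]

end Pool.Agent.U527.Rd
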