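import Pool.Agent.U527.Rd.Dim
import Pool.Agent.U527.Rd.Plane
import Pool.Agent.U527.Rd.TrR

set_option autoImplicit false

/-!
# Families of lines reducible along a subspace: arbitrary translations along the subspace
-/

open MeasureTheory Set Filter Topology ENNReal NNReal Metric

namespace Pool.Agent.U527.Rd

open Pool.Agent.H742R2.Kk
open Pool.Agent.Y245.Tr (tube av)

/-- The family is reducible to dimension `q + 1`, and the subspaces of codimension two contain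
(the image of) the set `V`. -/
def RedAlong (q : ℕ) : (m : ℕ) → Set (E (m + 1)) → (E (m + 1) → E (m + 1)) → Prop
  | 0, _, a => Measurable a
  | (k + 1), V, a => Measurable a ∧ (q < k + 1 → ∃ U : E (k + 2) ≃ₗᵢ[ℝ] E (k + 2),
      (∀ v ∈ V, (U.symm v) 0 = 0 ∧ (U.symm v) 1 = 0) ∧ ∀ θ : ℝ,
      ∃ (β : ℝ) (a' : E (k + 1) → E (k + 1)), RedAlong q k {w | U (emb θ 0 w) ∈ V} a' ∧
        ∀ e : E (k + 1), ‖e‖ = 1 → 0 < e 0 → ∃ s : ℝ,
          a (U (emb θ 0 e)) = U (emb θ β (a' e + s • e)))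

theorem RedAlong.measurable {q m : ℕ} {V : Set (E (m + 1))} {a : E (m + 1) → E (m + 1)}
    (h : RedAlong q m V a) : Measurable a := by
  match m, V, a, h with
  | 0, _, a, h => exact h
  | (k + 1), _, a, h => exact h.1

theorem RedAlong.mono {q m : ℕ} {V V₁ : Set (E (m + 1))} {a : E (m + 1) → E (m + 1)}
    (h : RedAlong q m V a) (hV : V₁ ⊆ V) : RedAlong q m V₁ a := by
  induction m with
  | zero => exact h
  | succ k ih =>
    refine ⟨h.1, fun hq => ?_⟩
    obtain ⟨U, hU, h2⟩ := h.2 hq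
    refine ⟨U, fun v hv => hU v (hV hv), fun θ => ?_⟩
    obtain ⟨β, a', h3, h4⟩ := h2 θ
    exact ⟨β, a', ih h3 (fun w hw => hV hw), h4⟩

theorem measurable_embθ {k : ℕ} (U : E (k + 2) ≃ₗᵢ[ℝ] E (k + 2)) (θ : ℝ) :
    Measurable (fun e : E (k + 1) => U (emb θ 0 e)) :=
  U.continuous.measurable.comp (measurable_emb.comp (by fun_prop :
    Measurable (fun e : E (k + 1) => (θ, ((0 : ℝ), e)))))

/-- Measurable translations along `V`. -/
theorem RedAlong.add {q m : ℕ} {V : Set (E (m + 1))} {a v : E (m + 1) → E (m + 1)}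
    (h : RedAlong q m V a) (hv : Measurable v) (hvV : ∀ e, v e ∈ V) :
    RedTo q m (fun e => a e + v e) := by
  induction m with
  | zero => exact Measurable.add (f := a) (g := v) h hv
  | succ k ih =>
    refine ⟨h.1.add hv, fun hq => ?_⟩
    obtain ⟨U, hU, h2⟩ := h.2 hq
    refine ⟨U, fun θ => ?_⟩
    obtain ⟨β, a', h3, h4⟩ := h2 θ
    have hdm : Measurable (dropMap U) :=
      (LinearMap.continuous_of_finiteDimensional (dropMap U)).measurable
    have hdr : ∀ e : E (k + 1), U (emb θ 0 (dropMap U (v (U (emb θ 0 e))))) =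
        v (U (emb θ 0 e)) := by
      intro e
      obtain ⟨g0, g1⟩ := hU _ (hvV (U (emb θ 0 e)))
      rw [emb_drop U θ g0 g1, LinearIsometryEquiv.apply_symm_apply]
    refine ⟨β, fun e => a' e + dropMap U (v (U (emb θ 0 e))), ?_, ?_⟩
    · refine ih h3 (hdm.comp (hv.comp (measurable_embθ U θ))) (fun e => ?_)
      show U (emb θ 0 (dropMap U (v (U (emb θ 0 e))))) ∈ V
      rw [hdr]
      exact hvV _
    · intro e he he0
      obtain ⟨s, hs⟩ := h4 e he he0
      refine ⟨s, ?_⟩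
      show a (U (emb θ 0 e)) + v (U (emb θ 0 e)) = _
      rw [hs]
      conv_lhs => rw [← hdr e]
      rw [← map_add, ← emb_add, add_zero]
      congr 2
      exact add_right_comm _ _ _

/-- Normalised integral over a tube. -/
noncomputable def avf {m : ℕ} (δ : ℝ) (f : E (m + 1) → ℝ≥0∞) (e b : E (m + 1)) : ℝ≥0∞ :=
  (ENNReal.ofReal δ ^ m)⁻¹ * ∫⁻ y in tube δ e b, f y

theorem av_eq {m : ℕ} (δ : ℝ) {F : Set (E (m + 1))} (hF : MeasurableSet F) (e b : E (m + 1)) :
    av δ F e b = avf δ (F.indicator 1) e b := by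
  unfold av avf
  rw [lintegral_indicator_one hF, Measure.restrict_apply hF]

theorem volume_tube' {m : ℕ} {δ : ℝ} (hδ : 0 < δ) (e b : E (m + 1)) (he : ‖e‖ = 1) :
    volume (tube δ e b) = ENNReal.ofReal δ ^ m * volume (closedBall (0 : E m) 1) :=
  volume_tube_eq hδ e b he

theorem norm_perp_le {n : ℕ} (z e : E n) (he : ‖e‖ = 1) :
    ‖z - (inner ℝ z e : ℝ) • e‖ ≤ ‖z‖ := by
  have h : ‖z‖ ^ 2 = ‖z - (inner ℝ z e : ℝ) • e‖ ^ 2 + (inner ℝ z e) ^ 2 := by
    have h1 : z = (z - (inner ℝ z e : ℝ) • e) + (inner ℝ z e : ℝ) • e := by abel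
    have h2 : (inner ℝ (z - (inner ℝ z e : ℝ) • e) ((inner ℝ z e : ℝ) • e) : ℝ) = 0 := by
      rw [inner_smul_right, inner_sub_left, inner_smul_left, real_inner_self_eq_norm_sq, he]
      simp
    conv_lhs => rw [h1]
    rw [norm_add_sq_real, h2, norm_smul, he]
    simp
  have h3 : ‖z - (inner ℝ z e : ℝ) • e‖ ^ 2 ≤ ‖z‖ ^ 2 := by
    rw [h]; nlinarith [sq_nonneg (inner ℝ z e : ℝ)]
  exact le_of_sq_le_sq h3 (norm_nonneg _)

/-- Pieces of tubes around parallel lines. -/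
theorem tub_shift {n : ℕ} {δ : ℝ} {e p p' : E n} (he : ‖e‖ = 1) (hp : ‖p - p'‖ ≤ δ) (k : ℤ) :
    tub δ e p k ⊆ tub (2 * δ) e p' k := by
  rintro y ⟨h1, h2, h3⟩
  refine ⟨h1, h2, ?_⟩
  have h4 : (y - p') - (inner ℝ (y - p') e : ℝ) • e = ((y - p) - (inner ℝ (y - p) e : ℝ) • e) +
      ((p - p') - (inner ℝ (p - p') e : ℝ) • e) := by
    have h5 : y - p' = (y - p) + (p - p') := by abel
    rw [h5, inner_add_left, add_smul]
    abel
  rw [h4]
  calc _ ≤ ‖(y - p) - (inner ℝ (y - p) e : ℝ) • e‖ + ‖(p - p') - (inner ℝ (p - p') e : ℝ) • e‖ :=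
        norm_add_le _ _
    _ ≤ δ + δ := add_le_add h3 ((norm_perp_le _ _ he).trans hp)
    _ = 2 * δ := by ring

theorem avf_le_wav {m : ℕ} {δ : ℝ} (hδ : 0 < δ) {b : E (m + 1) → E (m + 1)}
    {f : E (m + 1) → ℝ≥0∞} {e p : E (m + 1)} (he : ‖e‖ = 1) (hp : ‖p - b e‖ ≤ δ) (t : ℝ) :
    avf δ f e (p + t • e) ≤ 2 ^ (m + 1) * ⨆ k : ℤ, wav (2 * δ) b k f e := by
  have hρ0 : 0 < 2 * δ := by positivity
  have hD0 : ENNReal.ofReal (2 * δ) ^ m ≠ 0 := pow_ne_zero _ (by simpa using hρ0)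
  have hDt : ENNReal.ofReal (2 * δ) ^ m ≠ ∞ := ENNReal.pow_ne_top ENNReal.ofReal_ne_top
  have hE0 : ENNReal.ofReal δ ^ m ≠ 0 := pow_ne_zero _ (by simpa using hδ)
  have hEt : ENNReal.ofReal δ ^ m ≠ ∞ := ENNReal.pow_ne_top ENNReal.ofReal_ne_top
  set M := ⨆ k : ℤ, wav (2 * δ) b k f e with hM
  have h1 : ∀ k : ℤ, ∫⁻ y in tub δ e p k, f y ≤ ENNReal.ofReal (2 * δ) ^ m * M := by
    intro k
    calc ∫⁻ y in tub δ e p k, f y ≤ ∫⁻ y in tub (2 * δ) e (b e) k, f y :=
          lintegral_mono_set (tub_shift he hp k)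
      _ = ENNReal.ofReal (2 * δ) ^ m * wav (2 * δ) b k f e := by
          unfold wav
          rw [← mul_assoc, ENNReal.mul_inv_cancel hD0 hDt, one_mul]
      _ ≤ _ := by
          gcongr
          exact le_iSup (fun k : ℤ => wav (2 * δ) b k f e) k
  have h2 : ∫⁻ y in tube δ e (p + t • e), f y ≤ 2 * (ENNReal.ofReal (2 * δ) ^ m * M) := by
    refine (lintegral_mono_set (tube_subset δ e p he t)).trans ?_
    refine (lintegral_union_le _ _ _).trans ?_
    rw [two_mul]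
    exact add_le_add (h1 _) (h1 _)
  unfold avf
  calc (ENNReal.ofReal δ ^ m)⁻¹ * ∫⁻ y in tube δ e (p + t • e), f y
      ≤ (ENNReal.ofReal δ ^ m)⁻¹ * (2 * (ENNReal.ofReal (2 * δ) ^ m * M)) := by gcongr
    _ = 2 ^ (m + 1) * ((ENNReal.ofReal δ ^ m)⁻¹ * ENNReal.ofReal δ ^ m) * M := by
        rw [ENNReal.ofReal_mul (by norm_num), ENNReal.ofReal_ofNat, mul_pow]
        ring
    _ = _ := by rw [ENNReal.inv_mul_cancel hE0 hEt, mul_one]

/-- Choice of the best of finitely many translations. -/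
theorem exists_best {m : ℕ} {δ : ℝ} (V : Set (E (m + 1))) {a : E (m + 1) → E (m + 1)}
    (ha : Measurable a) {f : E (m + 1) → ℝ≥0∞} (hf : Measurable f) (d : ℕ → E (m + 1))
    (hd : ∀ i, d i ∈ V) (N : ℕ) : ∃ v : E (m + 1) → E (m + 1), Measurable v ∧ (∀ e, v e ∈ V) ∧
      ∀ e, ∀ i ≤ N, (⨆ k : ℤ, wav δ (fun x => a x + d i) k f e) ≤
        ⨆ k : ℤ, wav δ (fun x => a x + v x) k f e := by
  classical
  induction N with
  | zero =>
    refine ⟨fun _ => d 0, measurable_const, fun _ => hd 0, ?_⟩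
    intro e i hi
    have : i = 0 := by omega
    subst this
    exact le_rfl
  | succ N ih =>
    obtain ⟨v, hv, hvV, h⟩ := ih
    set X : Set (E (m + 1)) := {e | (⨆ k : ℤ, wav δ (fun x => a x + v x) k f e) <
      ⨆ k : ℤ, wav δ (fun x => a x + d (N + 1)) k f e} with hX
    have hXm : MeasurableSet X := measurableSet_lt (measurable_sup_wav (ha.add hv) hf)
      (measurable_sup_wav (ha.add_const _) hf)
    refine ⟨fun e => if e ∈ X then d (N + 1) else v e,
      Measurable.ite hXm measurable_const hv, ?_, ?_⟩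
    · intro e
      dsimp only
      split_ifs
      · exact hd _
      · exact hvV e
    · intro e i hi
      have key : ∀ w w' : E (m + 1) → E (m + 1), w e = w' e →
          (⨆ k : ℤ, wav δ w k f e) = ⨆ k : ℤ, wav δ w' k f e := by
        intro w w' hw
        unfold wav
        rw [hw]
      by_cases he : e ∈ X
      · have h1 : (⨆ k : ℤ, wav δ (fun x => a x + if x ∈ X then d (N + 1) else v x) k f e) =
            ⨆ k : ℤ, wav δ (fun x => a x + d (N + 1)) k f e := by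
          apply key
          simp [he]
        rw [h1]
        rcases Nat.lt_or_ge N i with h2 | h2
        · have : i = N + 1 := by omega
          subst this
          exact le_rfl
        · exact (h e i h2).trans (le_of_lt he)
      · have h1 : (⨆ k : ℤ, wav δ (fun x => a x + if x ∈ X then d (N + 1) else v x) k f e) =
            ⨆ k : ℤ, wav δ (fun x => a x + v x) k f e := by
          apply key
          simp [he]
        rw [h1]
        rcases Nat.lt_or_ge N i with h2 | h2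
        · have : i = N + 1 := by omega
          subst this
          exact not_lt.1 he
        · exact h e i h2

/-- Jensen for one tube. -/
theorem avf_pow_le {m : ℕ} (hm : 1 ≤ m) {δ : ℝ} (hδ : 0 < δ) {f : E (m + 1) → ℝ≥0∞}
    (hf : Measurable f) {e b : E (m + 1)} (he : ‖e‖ = 1) :
    avf δ f e b ^ (m + 1) ≤ volume (closedBall (0 : E m) 1) ^ (m + 1) *
      ((ENNReal.ofReal δ ^ m * volume (closedBall (0 : E m) 1))⁻¹ * ∫⁻ y, f y ^ (m + 1)) := by
  set v := volume (closedBall (0 : E m) 1) with hv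
  set T := tube δ e b with hT
  have hvT : volume T = ENNReal.ofReal δ ^ m * v := volume_tube' hδ e b he
  have hb0 : v ≠ 0 := (measure_closedBall_pos _ _ one_pos).ne'
  have hbt : v ≠ ∞ := measure_closedBall_lt_top.ne
  have hE0 : ENNReal.ofReal δ ^ m ≠ 0 := pow_ne_zero _ (by simpa using hδ)
  have hEt : ENNReal.ofReal δ ^ m ≠ ∞ := ENNReal.pow_ne_top ENNReal.ofReal_ne_top
  have hT0 : volume T ≠ 0 := by rw [hvT]; exact mul_ne_zero hE0 hb0
  have hTt : volume T ≠ ∞ := by rw [hvT]; exact ENNReal.mul_ne_top hEt hbt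
  set ν : Measure (E (m + 1)) := (volume T)⁻¹ • volume.restrict T with hν
  have hprob : IsProbabilityMeasure ν := by
    constructor
    rw [hν, Measure.smul_apply, Measure.restrict_apply_univ, smul_eq_mul,
      ENNReal.inv_mul_cancel hT0 hTt]
  have hint : ∀ g : E (m + 1) → ℝ≥0∞, ∫⁻ y, g y ∂ν = (volume T)⁻¹ * ∫⁻ y in T, g y := by
    intro g
    rw [hν, lintegral_smul_measure, smul_eq_mul]
  have hs1 : (1 : ℝ) < ((m + 1 : ℕ) : ℝ) := by
    have : (1 : ℝ) ≤ m := by exact_mod_cast hm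
    push_cast; linarith
  have h1 := avg_rpow ν hf.aemeasurable hs1
  simp only [ENNReal.rpow_natCast] at h1
  rw [hint, hint] at h1
  have h2 : avf δ f e b = v * ((volume T)⁻¹ * ∫⁻ y in T, f y) := by
    unfold avf
    rw [hvT, ENNReal.mul_inv (Or.inl hE0) (Or.inl hEt), ← mul_assoc, ← mul_assoc,
      mul_comm v (ENNReal.ofReal δ ^ m)⁻¹, mul_assoc (ENNReal.ofReal δ ^ m)⁻¹,
      ENNReal.mul_inv_cancel hb0 hbt, mul_one]
  rw [h2, mul_pow, ← hvT]
  gcongr
  refine h1.trans ?_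
  gcongr
  exact Measure.restrict_le_self

/-- Supremum of countably many functions. -/
theorem lint_sup {X : Type*} [MeasurableSpace X] (μ : Measure X) {w : ℕ → X → ℝ≥0∞}
    (hw : ∀ i, Measurable (w i)) {B : ℝ≥0∞}
    (h : ∀ N : ℕ, ∃ b : X → ℝ≥0∞, (∀ e, ∀ i ≤ N, w i e ≤ b e) ∧ ∫⁻ e, b e ∂μ ≤ B) :
    ∫⁻ e, ⨆ i, w i e ∂μ ≤ B := by
  have h1 : ∀ e, (⨆ i, w i e) = ⨆ N : ℕ, ⨆ i : Fin (N + 1), w i e := by
    intro e
    apply le_antisymm
    · refine iSup_le fun i => ?_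
      refine le_trans ?_ (le_iSup (fun N : ℕ => ⨆ i : Fin (N + 1), w i e) i)
      exact le_iSup (fun j : Fin (i + 1) => w j e) ⟨i, by omega⟩
    · exact iSup_le fun N => iSup_le fun i => le_iSup (fun i => w i e) i
  simp_rw [h1]
  rw [lintegral_iSup (fun N => Measurable.iSup (fun i : Fin (N + 1) => hw i))]
  · refine iSup_le fun N => ?_
    obtain ⟨b, hb, hB⟩ := h N
    refine le_trans (lintegral_mono fun e => ?_) hB
    exact iSup_le fun i => hb e i (by omega)
  · intro N N' hNN e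
    exact iSup_le fun i => le_iSup (fun j : Fin (N' + 1) => w j e) ⟨i, by omega⟩

/-- **The maximal function over all tubes whose axis meets `a e + V`.** -/
theorem along_max {q m : ℕ} (hqm : q ≤ m) (hm : 1 ≤ m) {η : ℝ} (hη0 : 0 ≤ η) (hη : LossLE q η)
    {ε : ℝ} (hε : 0 < ε) : ∃ A : ℝ, 0 < A ∧
    ∀ (V : Set (E (m + 1))) (a : E (m + 1) → E (m + 1)), RedAlong q m V a →
    ∀ δ : ℝ, 0 < δ → δ < 1 →
    ∀ f : E (m + 1) → ℝ≥0∞, Measurable f → ∃ G : sphere (0 : E (m + 1)) 1 → ℝ≥0∞, Measurable G ∧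
      (∀ e : sphere (0 : E (m + 1)) 1, ∀ p ∈ V, ∀ t : ℝ,
        avf δ f e (a e + p + t • (e : E (m + 1))) ^ (m + 1) ≤ G e) ∧
      ∫⁻ e, G e ∂(volume : Measure (E (m + 1))).toSphere ≤
        ENNReal.ofReal (A * δ⁻¹ ^ (η + ε)) * ∫⁻ y, f y ^ (m + 1) := by
  obtain ⟨A, hA, hK⟩ := kb_loss hη m hqm hε
  set v := volume (closedBall (0 : E m) 1) with hv
  have hb0 : v ≠ 0 := (measure_closedBall_pos _ _ one_pos).ne'
  have hbt : v ≠ ∞ := measure_closedBall_lt_top.ne
  set σ := (volume : Measure (E (m + 1))).toSphere Set.univ with hσ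
  have hσt : σ ≠ ∞ := measure_ne_top _ _
  set B₁ : ℝ≥0∞ := v ^ (m + 1) * (ENNReal.ofReal (1 / 2) ^ m * v)⁻¹ * σ with hB₁
  have hCm0 : ENNReal.ofReal (1 / 2) ^ m ≠ 0 := pow_ne_zero _ (by simp)
  have hB₁t : B₁ ≠ ∞ := by
    refine ENNReal.mul_ne_top (ENNReal.mul_ne_top (ENNReal.pow_ne_top hbt) ?_) hσt
    exact ENNReal.inv_ne_top.2 (mul_ne_zero hCm0 hb0)
  refine ⟨(2 ^ (m + 1)) ^ (m + 1) * ((m + 1) * A) + (B₁.toReal + 1), by positivity, ?_⟩
  intro V a ha δ hδ hδ1 f hf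
  have hi1 : (1 : ℝ) ≤ δ⁻¹ := (one_le_inv₀ hδ).2 hδ1.le
  have hpow1 : (1 : ℝ) ≤ δ⁻¹ ^ (η + ε) := Real.one_le_rpow hi1 (by linarith)
  have hpow0 : (0 : ℝ) < δ⁻¹ ^ (η + ε) := by linarith
  rcases V.eq_empty_or_nonempty with hVe | hVne
  · refine ⟨fun _ => 0, measurable_const, ?_, by simp⟩
    intro e p hp
    rw [hVe] at hp
    exact absurd hp (notMem_empty p)
  have hVn : Nonempty V := hVne.to_subtype
  rcases lt_or_ge (2 * δ) 1 with hρ | hρ
  · -- small radii
    have hρ0 : 0 < 2 * δ := by positivity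
    set d : ℕ → E (m + 1) := fun i => ((TopologicalSpace.denseSeq V i : V) : E (m + 1)) with hd
    have hdV : ∀ i, d i ∈ V := fun i => (TopologicalSpace.denseSeq V i).2
    have hdd : ∀ p ∈ V, ∃ i, ‖p - d i‖ ≤ δ := by
      intro p hp
      obtain ⟨y, hy, i, rfl⟩ := Metric.dense_iff.1 (TopologicalSpace.denseRange_denseSeq V)
        ⟨p, hp⟩ δ hδ
      refine ⟨i, ?_⟩
      rw [mem_ball, dist_comm] at hy
      have : dist p (d i) < δ := hy
      rw [dist_eq_norm] at this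
      exact this.le
    choose w hw hwV hbest using fun N => exists_best (δ := 2 * δ) V ha.measurable hf d hdV N
    set Wb : ℕ → E (m + 1) → ℝ≥0∞ := fun N e =>
      ⨆ k : ℤ, wav (2 * δ) (fun x => a x + w N x) k f e with hWb
    set Wd : ℕ → E (m + 1) → ℝ≥0∞ := fun i e =>
      ⨆ k : ℤ, wav (2 * δ) (fun x => a x + d i) k f e with hWd
    have hWdm : ∀ i, Measurable (Wd i) := fun i =>
      measurable_sup_wav (ha.measurable.add_const _) hf
    set μ := (volume : Measure (E (m + 1))).toSphere with hμ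
    have hsup : ∫⁻ e : sphere (0 : E (m + 1)) 1, ⨆ i, Wd i e ^ (m + 1) ∂μ ≤
        (m + 1) * (ENNReal.ofReal (A * δ⁻¹ ^ (η + ε)) * ∫⁻ y, f y ^ (m + 1)) := by
      refine lint_sup μ (w := fun i (e : sphere (0 : E (m + 1)) 1) => Wd i e ^ (m + 1))
        (fun i => ((hWdm i).pow_const _).comp measurable_subtype_coe) ?_
      intro N
      refine ⟨fun e => Wb N e ^ (m + 1), ?_, ?_⟩
      · intro e i hi
        exact pow_le_pow_left' (hbest N e i hi) _
      · have hred : RedTo q m (fun x => a x + w N x) := ha.add (hw N) (hwV N)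
        have hbm : Measurable (fun e => Wb N e ^ (m + 1)) :=
          (measurable_sup_wav hred.measurable hf).pow_const _
        calc ∫⁻ e : sphere (0 : E (m + 1)) 1, Wb N e ^ (m + 1) ∂μ
            ≤ (m + 1) * ∫⁻ x in closedBall (0 : E (m + 1)) 1, Wb N (‖x‖⁻¹ • x) ^ (m + 1) :=
              sphere_le_ball m hbm
          _ ≤ (m + 1) * (ENNReal.ofReal (A * (2 * δ)⁻¹ ^ (η + ε)) * ∫⁻ y, f y ^ (m + 1)) := by
              gcongr
              exact hK (2 * δ) _ hρ0 hρ hred f hf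
          _ ≤ _ := by
              gcongr
              linarith
    refine ⟨fun e => (2 ^ (m + 1)) ^ (m + 1) * ⨆ i, Wd i e ^ (m + 1), ?_, ?_, ?_⟩
    · exact (Measurable.iSup (fun i => ((hWdm i).pow_const _).comp
        measurable_subtype_coe)).const_mul _
    · intro e p hp t
      obtain ⟨i, hi⟩ := hdd p hp
      have h1 : avf δ f e (a e + p + t • (e : E (m + 1))) ≤ 2 ^ (m + 1) * Wd i e := by
        apply avf_le_wav hδ (b := fun x => a x + d i) (by simp)
        have : a (e : E (m + 1)) + p - (a (e : E (m + 1)) + d i) = p - d i := by abel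
        show ‖a (e : E (m + 1)) + p - (a (e : E (m + 1)) + d i)‖ ≤ δ
        rw [this]
        exact hi
      calc avf δ f e (a e + p + t • (e : E (m + 1))) ^ (m + 1)
          ≤ (2 ^ (m + 1) * Wd i e) ^ (m + 1) := pow_le_pow_left' h1 _
        _ = (2 ^ (m + 1)) ^ (m + 1) * Wd i e ^ (m + 1) := mul_pow _ _ _
        _ ≤ (2 ^ (m + 1)) ^ (m + 1) * ⨆ i, Wd i e ^ (m + 1) := by
            gcongr
            exact le_iSup (fun i => Wd i (e : E (m + 1)) ^ (m + 1)) i
    · have e2 : ENNReal.ofReal ((m:ℝ) + 1) = (m:ℝ≥0∞) + 1 := by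
        rw [ENNReal.ofReal_add (by positivity) (by norm_num)]
        simp
      have e3 : ENNReal.ofReal ((2 ^ (m + 1)) ^ (m + 1)) = (2 ^ (m + 1)) ^ (m + 1) := by
        rw [ENNReal.ofReal_pow (by positivity), ENNReal.ofReal_pow (by norm_num),
          ENNReal.ofReal_ofNat]
      rw [lintegral_const_mul' _ _ (ENNReal.pow_ne_top (ENNReal.pow_ne_top (by norm_num)))]
      calc (2 ^ (m + 1)) ^ (m + 1) * ∫⁻ e : sphere (0 : E (m + 1)) 1, ⨆ i, Wd i e ^ (m + 1) ∂μ
          ≤ (2 ^ (m + 1)) ^ (m + 1) * ((m + 1) *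
            (ENNReal.ofReal (A * δ⁻¹ ^ (η + ε)) * ∫⁻ y, f y ^ (m + 1))) := by gcongr
        _ = ENNReal.ofReal ((2 ^ (m + 1)) ^ (m + 1) * (((m:ℝ) + 1) * (A * δ⁻¹ ^ (η + ε)))) *
            ∫⁻ y, f y ^ (m + 1) := by
            rw [ENNReal.ofReal_mul (p := ((2:ℝ) ^ (m + 1)) ^ (m + 1)) (by positivity),
              ENNReal.ofReal_mul (p := (m:ℝ) + 1) (by positivity), e2, e3]
            ring
        _ ≤ _ := by
            refine mul_le_mul_left (ENNReal.ofReal_le_ofReal ?_) _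
            have h0 : 0 ≤ B₁.toReal := ENNReal.toReal_nonneg
            calc (2 ^ (m + 1)) ^ (m + 1) * (((m:ℝ) + 1) * (A * δ⁻¹ ^ (η + ε)))
                = (2 ^ (m + 1)) ^ (m + 1) * (((m:ℝ) + 1) * A) * δ⁻¹ ^ (η + ε) := by ring
              _ ≤ _ := by
                gcongr
                linarith
  · -- large radii
    refine ⟨fun _ => v ^ (m + 1) * ((ENNReal.ofReal δ ^ m * v)⁻¹ * ∫⁻ y, f y ^ (m + 1)),
      measurable_const, fun e p _ t => avf_pow_le hm hδ hf (by simp), ?_⟩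
    rw [lintegral_const]
    have hδC : 1 / 2 ≤ δ := by linarith
    calc v ^ (m + 1) * ((ENNReal.ofReal δ ^ m * v)⁻¹ * ∫⁻ y, f y ^ (m + 1)) * σ
        ≤ v ^ (m + 1) * ((ENNReal.ofReal (1 / 2) ^ m * v)⁻¹ * ∫⁻ y, f y ^ (m + 1)) * σ := by
          gcongr
      _ = B₁ * ∫⁻ y, f y ^ (m + 1) := by rw [hB₁]; ring
      _ ≤ _ := by
          gcongr
          calc B₁ = ENNReal.ofReal B₁.toReal := (ENNReal.ofReal_toReal hB₁t).symm
            _ ≤ _ := by
              apply ENNReal.ofReal_le_ofReal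
              have h0 : 0 ≤ B₁.toReal := ENNReal.toReal_nonneg
              have h1 : (0 : ℝ) ≤ (2 ^ (m + 1)) ^ (m + 1) * (((m:ℝ) + 1) * A) := by positivity
              calc B₁.toReal ≤ (2 ^ (m + 1)) ^ (m + 1) * (((m:ℝ) + 1) * A) + (B₁.toReal + 1) := by
                    linarith
                _ ≤ _ := le_mul_of_one_le_right (by positivity) hpow1

/-- The hypothesis of the transfer. -/
theorem maxHyp_along {q m : ℕ} (hqm : q ≤ m) (hm : 1 ≤ m) {η : ℝ} (hη0 : 0 ≤ η)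
    (hη : LossLE q η) {ε : ℝ} (hε : 0 < ε) : ∃ A : ℝ, 0 < A ∧
    ∀ (V : Set (E (m + 1))) (a : E (m + 1) → E (m + 1)), RedAlong q m V a →
    ∀ (S : Set (sphere (0 : E (m + 1)) 1)) (p : sphere (0 : E (m + 1)) 1 → E (m + 1)),
      (∀ e ∈ S, p e ∈ V) → ∀ T : Set ℝ, MaxHypA m (m + 1) η ε A T S (fun e => a e + p e) := by
  obtain ⟨A, hA, h⟩ := along_max hqm hm hη0 hη hε
  refine ⟨A, hA, ?_⟩
  intro V a ha S p hp T j F hF
  have hδ : (0 : ℝ) < (1 / 2) ^ (j + 1) := by positivity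
  have hδ1 : (1 / 2 : ℝ) ^ (j + 1) < 1 := pow_lt_one₀ (by norm_num) (by norm_num) (by omega)
  have hinv : ((1 / 2 : ℝ) ^ (j + 1))⁻¹ = (2:ℝ) ^ (j + 1) := by
    rw [one_div, inv_pow, inv_inv]
  obtain ⟨G, hG, h1, h2⟩ := h V a ha _ hδ hδ1 (F.indicator 1) (measurable_one.indicator hF)
  refine ⟨G, hG, ?_, ?_⟩
  · intro e he t _
    rw [av_eq _ hF]
    exact h1 e _ (hp e he) t
  · rwa [lint_ind hF, hinv] at h2

/-- Dimension of the sets with a large part of a line that meets `a e + V`, in every direction. -/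
theorem dim_along {q m : ℕ} (hqm : q ≤ m) (hm : 1 ≤ m) {η : ℝ} (hη0 : 0 ≤ η) (hη : LossLE q η)
    {V : Set (E (m + 1))} {a : E (m + 1) → E (m + 1)} (ha : RedAlong q m V a)
    {S : Set (sphere (0 : E (m + 1)) 1)}
    (hS : (volume : Measure (E (m + 1))).toSphere S ≠ 0) {K : Set (E (m + 1))}
    (hK : ∀ e ∈ S, ∃ p ∈ V, volume {t : ℝ | a e + p + t • (e : E (m + 1)) ∈ K} ≠ 0) :
    ENNReal.ofReal ((m:ℝ) + 1 - η) ≤ dimH K := by
  classical
  choose! p hpV hp using hK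
  refine dim_geT (p := m + 1) hS (a := fun e => a e + p e) ?_ (fun e he => hp e he)
  intro N ε hε
  obtain ⟨A, hA, h⟩ := maxHyp_along hqm hm hη0 hη hε
  exact ⟨A, hA, h V a ha S p hpV _⟩

end Pool.Agent.U527.Rd
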