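import Pool.Agent.H742R2.Kk.Step
import Pool.Agent.H742R2.Kk.Sphere
import Pool.Agent.H742R2.Kk.Planar
import Pool.Agent.Y244.WR.Max

set_option autoImplicit false

/-!
# Kakeya estimates for families of lines reducible to a smaller dimension: the base
-/

open MeasureTheory Set Filter Topology ENNReal NNReal Metric

namespace Pool.Agent.U527.Rd

open Pool.Agent.H742R2.Kk
open Pool.Agent.Y244.HM (StrongP)
open Pool.Agent.W46.HM (kmax)

/-- Families of lines `a e + ℝ e` in `ℝ^(m+1)` which are reducible to dimension `q + 1`. -/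
def RedTo (q : ℕ) : (m : ℕ) → (E (m + 1) → E (m + 1)) → Prop
  | 0, a => Measurable a
  | (k + 1), a => Measurable a ∧ (q < k + 1 → ∃ U : E (k + 2) ≃ₗᵢ[ℝ] E (k + 2), ∀ θ : ℝ,
      ∃ (β : ℝ) (a' : E (k + 1) → E (k + 1)), RedTo q k a' ∧
        ∀ e : E (k + 1), ‖e‖ = 1 → 0 < e 0 → ∃ s : ℝ,
          a (U (emb θ 0 e)) = U (emb θ β (a' e + s • e)))

theorem RedTo.measurable {q m : ℕ} {a : E (m + 1) → E (m + 1)} (h : RedTo q m a) :
    Measurable a := by
  match m, a, h with
  | 0, a, h => exact h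
  | (k + 1), a, h => exact h.1

/-- Ball integral versus surface integral. -/
theorem ball_le_sphere (n : ℕ) {G : E (n + 1) → ℝ≥0∞} (hG : Measurable G) :
    ∫⁻ x in closedBall (0 : E (n + 1)) 1, G (‖x‖⁻¹ • x) ≤
      ENNReal.ofReal (2 ^ (n + 1)) *
        ∫⁻ e : sphere (0 : E (n + 1)) 1, G e ∂(volume : Measure (E (n + 1))).toSphere := by
  set μ : Measure (E (n + 1)) := volume with hμ
  set F : sphere (0 : E (n + 1)) 1 × Ioi (0 : ℝ) → ℝ≥0∞ :=
    fun p => G p.1 * (Iio (⟨2, mem_Ioi.2 two_pos⟩ : Ioi (0 : ℝ))).indicator 1 p.2 with hF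
  have hFm : Measurable F := by
    refine Measurable.mul (hG.comp (measurable_subtype_coe.comp measurable_fst)) ?_
    exact (measurable_one.indicator measurableSet_Iio).comp measurable_snd
  have hdim : Module.finrank ℝ (E (n + 1)) - 1 = n := by simp
  have h1 : ∫⁻ p, F p ∂(μ.toSphere.prod (Measure.volumeIoiPow n)) =
      (∫⁻ e : sphere (0 : E (n + 1)) 1, G e ∂μ.toSphere) *
        ENNReal.ofReal (2 ^ (n + 1) / (n + 1)) := by
    rw [lintegral_prod _ hFm.aemeasurable]
    have : ∀ x : sphere (0 : E (n + 1)) 1, ∫⁻ y, F (x, y) ∂(Measure.volumeIoiPow n) =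
        G x * ENNReal.ofReal (2 ^ (n + 1) / (n + 1)) := by
      intro x
      simp only [hF]
      rw [lintegral_const_mul _ (measurable_one.indicator measurableSet_Iio),
        lintegral_indicator_one measurableSet_Iio, Measure.volumeIoiPow_apply_Iio]
    simp_rw [this]
    exact lintegral_mul_const _ (hG.comp measurable_subtype_coe)
  have h2 : ∫⁻ x : ({0}ᶜ : Set (E (n + 1))), F (homeomorphUnitSphereProd (E (n + 1)) x)
        ∂(μ.comap (↑)) = ∫⁻ p, F p ∂(μ.toSphere.prod (Measure.volumeIoiPow n)) := by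
    have := μ.measurePreserving_homeomorphUnitSphereProd.lintegral_comp_emb
      (Homeomorph.measurableEmbedding _) F
    rw [hdim] at this
    exact this
  have h3 : ∫⁻ x in closedBall (0 : E (n + 1)) 1, G (‖x‖⁻¹ • x) ≤
      ∫⁻ x : ({0}ᶜ : Set (E (n + 1))), F (homeomorphUnitSphereProd (E (n + 1)) x)
        ∂(μ.comap (↑)) := by
    have hpt : ∀ x : ({0}ᶜ : Set (E (n + 1))), F (homeomorphUnitSphereProd (E (n + 1)) x) =
        (ball (0 : E (n + 1)) 2).indicator (fun x => G (‖x‖⁻¹ • x)) (x : E (n + 1)) := by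
      intro x
      simp only [hF]
      by_cases hx : ‖(x : E (n + 1))‖ < 2
      · have h' : (x : E (n + 1)) ∈ ball (0 : E (n + 1)) 2 := by simpa using hx
        have h'' : (homeomorphUnitSphereProd (E (n + 1)) x).2 ∈
            Iio (⟨2, mem_Ioi.2 two_pos⟩ : Ioi (0 : ℝ)) := by
          rw [mem_Iio, ← Subtype.coe_lt_coe]
          simpa using hx
        rw [indicator_of_mem h', indicator_of_mem h'']
        simp
      · have h' : (x : E (n + 1)) ∉ ball (0 : E (n + 1)) 2 := by simpa using hx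
        have h'' : (homeomorphUnitSphereProd (E (n + 1)) x).2 ∉
            Iio (⟨2, mem_Ioi.2 two_pos⟩ : Ioi (0 : ℝ)) := by
          rw [mem_Iio, ← Subtype.coe_lt_coe]
          simpa using hx
        rw [indicator_of_notMem h', indicator_of_notMem h'', mul_zero]
    simp_rw [hpt]
    rw [lintegral_subtype_comap (measurableSet_singleton (0 : E (n + 1))).compl
      (fun x => (ball (0 : E (n + 1)) 2).indicator (fun x => G (‖x‖⁻¹ • x)) x)]
    rw [← lintegral_indicator measurableSet_closedBall,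
      ← lintegral_indicator (measurableSet_singleton (0 : E (n + 1))).compl]
    apply lintegral_mono_ae
    have h0 : ∀ᵐ x ∂μ, x ≠ (0 : E (n + 1)) := by
      rw [ae_iff]
      simp only [ne_eq, not_not]
      have : {x : E (n + 1) | x = 0} = {0} := rfl
      rw [this]
      exact measure_singleton 0
    filter_upwards [h0] with x hx
    by_cases hb : x ∈ closedBall (0 : E (n + 1)) 1
    · have hb' : x ∈ ball (0 : E (n + 1)) 2 :=
        closedBall_subset_ball (by norm_num : (1:ℝ) < 2) hb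
      rw [indicator_of_mem hb, indicator_of_mem (mem_compl_singleton_iff.2 hx),
        indicator_of_mem hb']
    · rw [indicator_of_notMem hb]
      exact zero_le
  rw [h2, h1, mul_comm] at h3
  refine h3.trans ?_
  gcongr
  rw [div_le_iff₀ (by positivity)]
  have h4 : (1 : ℝ) ≤ (n : ℝ) + 1 := by
    have : (0 : ℝ) ≤ n := Nat.cast_nonneg n
    linarith
  exact le_mul_of_one_le_right (by positivity) h4

/-- Jensen. -/
theorem avg_rpow {X : Type*} [MeasurableSpace X] (μ : Measure X) [IsProbabilityMeasure μ]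
    {f : X → ℝ≥0∞} (hf : AEMeasurable f μ) {s : ℝ} (hs : 1 < s) :
    (∫⁻ x, f x ∂μ) ^ s ≤ ∫⁻ x, f x ^ s ∂μ := by
  have h := ENNReal.lintegral_mul_le_Lp_mul_Lq μ (Real.HolderConjugate.conjExponent hs) hf
    (g := fun _ => 1) aemeasurable_const
  simp only [Pi.mul_apply, mul_one, ENNReal.one_rpow, lintegral_const, measure_univ] at h
  have hs0 : 0 < s := by linarith
  calc (∫⁻ x, f x ∂μ) ^ s ≤ ((∫⁻ x, f x ^ s ∂μ) ^ (1 / s)) ^ s :=
        ENNReal.rpow_le_rpow h hs0.le
    _ = ∫⁻ x, f x ^ s ∂μ := by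
      rw [← ENNReal.rpow_mul, one_div_mul_cancel hs0.ne', ENNReal.rpow_one]

theorem tub_eq {m : ℕ} (δ : ℝ) (e a : E (m + 1)) (he : ‖e‖ = 1) (k : ℤ) :
    tub δ e a k =
      Pool.Agent.W46.KK.tube δ (a + ((k : ℝ) + 1 / 2 - inner ℝ a e : ℝ) • e) e := by
  have h1 : ∀ p : E (m + 1), inner ℝ (p - (a + ((k : ℝ) + 1 / 2 - inner ℝ a e : ℝ) • e)) e =
      inner ℝ p e - k - 1 / 2 := by
    intro p
    rw [inner_sub_left, inner_add_left, inner_smul_left, real_inner_self_eq_norm_sq, he]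
    simp only [conj_trivial, one_pow, mul_one]
    ring
  have h2 : ∀ p : E (m + 1), (p - (a + ((k : ℝ) + 1 / 2 - inner ℝ a e : ℝ) • e)) -
      (inner ℝ p e - k - 1 / 2 : ℝ) • e = (p - a) - (inner ℝ (p - a) e : ℝ) • e := by
    intro p
    rw [inner_sub_left]
    module
  ext p
  unfold tub Pool.Agent.W46.KK.tube
  rw [mem_ofPred_eq, mem_ofPred_eq, h1, h2, abs_le]
  constructor
  · rintro ⟨h3, h4, h5⟩
    exact ⟨⟨by linarith, by linarith⟩, h5⟩
  · rintro ⟨⟨h3, h4⟩, h5⟩
    exact ⟨by linarith, by linarith, h5⟩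

theorem volume_tub {m : ℕ} {δ : ℝ} (hδ : 0 < δ) (e a : E (m + 1)) (he : ‖e‖ = 1) (k : ℤ) :
    volume (tub δ e a k) = ENNReal.ofReal δ ^ m * volume (closedBall (0 : E m) 1) := by
  have h := volume_piece δ (k : ℝ) ((k : ℝ) + 1) e a he
  unfold tub
  rw [h]
  have e1 : ((k : ℝ) + 1 - k) = 1 := by ring
  rw [e1, ENNReal.ofReal_one, one_mul, Measure.addHaar_closedBall _ _ hδ.le,
    ENNReal.ofReal_pow hδ.le]
  simp only [finrank_euclideanSpace, Fintype.card_fin]
  rw [Measure.addHaar_unitClosedBall_eq_addHaar_unitBall]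

theorem volume_tube_eq {m : ℕ} {δ : ℝ} (hδ : 0 < δ) (e b : E (m + 1)) (he : ‖e‖ = 1) :
    volume (Pool.Agent.W46.KK.tube δ b e) =
      ENNReal.ofReal δ ^ m * volume (closedBall (0 : E m) 1) := by
  have h := volume_piece δ (inner ℝ b e - 1 / 2) (inner ℝ b e + 1 / 2) e b he
  have h0 : Pool.Agent.W46.KK.tube δ b e = {p : E (m + 1) | inner ℝ b e - 1 / 2 ≤ inner ℝ p e ∧
      inner ℝ p e ≤ inner ℝ b e + 1 / 2 ∧
      ‖(p - b) - (inner ℝ (p - b) e : ℝ) • e‖ ≤ δ} := by
    ext p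
    unfold Pool.Agent.W46.KK.tube
    rw [mem_ofPred_eq, mem_ofPred_eq, abs_le]
    have h1 : (inner ℝ (p - b) e : ℝ) = inner ℝ p e - inner ℝ b e := inner_sub_left _ _ _
    constructor
    · rintro ⟨⟨h3, h4⟩, h5⟩
      rw [h1] at h3 h4
      exact ⟨by linarith, by linarith, h5⟩
    · rintro ⟨h3, h4, h5⟩
      refine ⟨⟨?_, ?_⟩, h5⟩
      · rw [h1]; linarith
      · rw [h1]; linarith
  rw [h0, h]
  have e1 : (inner ℝ b e + 1 / 2 - (inner ℝ b e - 1 / 2) : ℝ) = 1 := by ring
  rw [e1, ENNReal.ofReal_one, one_mul, Measure.addHaar_closedBall _ _ hδ.le,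
    ENNReal.ofReal_pow hδ.le]
  simp only [finrank_euclideanSpace, Fintype.card_fin]
  rw [Measure.addHaar_unitClosedBall_eq_addHaar_unitBall]

/-- The pieces of the tubes and the Kakeya maximal function. -/
theorem wav_le_kmax {m : ℕ} {δ : ℝ} (hδ : 0 < δ) (a : E (m + 1) → E (m + 1))
    (f : E (m + 1) → ℝ≥0∞) {e : E (m + 1)} (he : ‖e‖ = 1) :
    (⨆ k : ℤ, wav δ a k f e) ≤ volume (closedBall (0 : E m) 1) * kmax δ f e := by
  apply iSup_le
  intro k
  have hD0 : ENNReal.ofReal δ ^ m ≠ 0 := pow_ne_zero _ (by simpa using hδ)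
  have hDt : ENNReal.ofReal δ ^ m ≠ ∞ := ENNReal.pow_ne_top ENNReal.ofReal_ne_top
  have hv := volume_tub hδ e (a e) he k
  have hb0 : volume (closedBall (0 : E m) 1) ≠ 0 := (measure_closedBall_pos _ _ one_pos).ne'
  have hbt : volume (closedBall (0 : E m) 1) ≠ ∞ := measure_closedBall_lt_top.ne
  have h1 : (volume (tub δ e (a e) k))⁻¹ * ∫⁻ y in tub δ e (a e) k, f y ≤ kmax δ f e := by
    unfold kmax
    rw [tub_eq δ e (a e) he k]
    exact le_iSup (fun b : E (m + 1) => (volume (Pool.Agent.W46.KK.tube δ b e))⁻¹ *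
      ∫⁻ y in Pool.Agent.W46.KK.tube δ b e, f y) _
  calc wav δ a k f e = volume (closedBall (0 : E m) 1) *
        ((volume (tub δ e (a e) k))⁻¹ * ∫⁻ y in tub δ e (a e) k, f y) := by
        unfold wav
        rw [hv, ENNReal.mul_inv (Or.inl hD0) (Or.inl hDt), ← mul_assoc, ← mul_assoc,
          mul_comm (volume (closedBall (0 : E m) 1)) (ENNReal.ofReal δ ^ m)⁻¹,
          mul_assoc (ENNReal.ofReal δ ^ m)⁻¹, ENNReal.mul_inv_cancel hb0 hbt, mul_one]
    _ ≤ _ := by gcongr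

/-- From exponent `p` to exponent `p s`. -/
theorem kmax_rpow {m : ℕ} {δ : ℝ} (hδ : 0 < δ) {f : E (m + 1) → ℝ≥0∞} (hf : Measurable f)
    {e : E (m + 1)} (he : ‖e‖ = 1) {s : ℝ} (hs : 1 < s) :
    kmax δ f e ≤ kmax δ (fun y => f y ^ s) e ^ (1 / s) := by
  have hs0 : 0 < s := by linarith
  unfold kmax
  apply iSup_le
  intro b
  set T := Pool.Agent.W46.KK.tube δ b e with hT
  -- the tube has positive finite volume
  have hvT : volume T = ENNReal.ofReal δ ^ m * volume (closedBall (0 : E m) 1) :=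
    volume_tube_eq hδ e b he
  have hb0 : volume (closedBall (0 : E m) 1) ≠ 0 := (measure_closedBall_pos _ _ one_pos).ne'
  have hbt : volume (closedBall (0 : E m) 1) ≠ ∞ := measure_closedBall_lt_top.ne
  have hT0 : volume T ≠ 0 := by
    rw [hvT]
    exact mul_ne_zero (pow_ne_zero _ (by simpa using hδ)) hb0
  have hTt : volume T ≠ ∞ := by
    rw [hvT]
    exact ENNReal.mul_ne_top (ENNReal.pow_ne_top ENNReal.ofReal_ne_top) hbt
  set ν : Measure (E (m + 1)) := (volume T)⁻¹ • volume.restrict T with hν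
  have hprob : IsProbabilityMeasure ν := by
    constructor
    rw [hν, Measure.smul_apply, Measure.restrict_apply_univ, smul_eq_mul,
      ENNReal.inv_mul_cancel hT0 hTt]
  have hint : ∀ g : E (m + 1) → ℝ≥0∞, ∫⁻ y, g y ∂ν = (volume T)⁻¹ * ∫⁻ y in T, g y := by
    intro g
    rw [hν, lintegral_smul_measure, smul_eq_mul]
  have h1 := avg_rpow ν hf.aemeasurable hs
  rw [hint, hint] at h1
  have h2 : (volume T)⁻¹ * ∫⁻ y in T, f y ^ s ≤
      ⨆ a : E (m + 1), (volume (Pool.Agent.W46.KK.tube δ a e))⁻¹ *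
        ∫⁻ y in Pool.Agent.W46.KK.tube δ a e, f y ^ s :=
    le_iSup (fun a : E (m + 1) => (volume (Pool.Agent.W46.KK.tube δ a e))⁻¹ *
        ∫⁻ y in Pool.Agent.W46.KK.tube δ a e, f y ^ s) b
  calc (volume T)⁻¹ * ∫⁻ y in T, f y
      = (((volume T)⁻¹ * ∫⁻ y in T, f y) ^ s) ^ (1 / s) := by
        rw [← ENNReal.rpow_mul, mul_one_div_cancel hs0.ne', ENNReal.rpow_one]
    _ ≤ _ := ENNReal.rpow_le_rpow (h1.trans h2) (by positivity)

/-- **The base**: the estimate in dimension `q + 1`, for all measurable families. -/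
theorem kb_base {q : ℕ} {c : ℝ} (hq : 1 ≤ q) (hc : 1 < c) (h : StrongP q c) : ∃ C : ℝ, 0 < C ∧
    ∀ (δ : ℝ) (a : E (q + 1) → E (q + 1)), 0 < δ → δ < 1 → Measurable a →
      KB q δ a (ENNReal.ofReal (C * δ ^ (-((q : ℝ) - q / c)))) := by
  obtain ⟨C, hC, hS⟩ := h
  have hq0 : (0 : ℝ) < q := by exact_mod_cast hq
  have hc0 : 0 < c := by linarith
  set V : ℝ≥0∞ := volume (closedBall (0 : E q) 1) with hV
  have hVt : V ≠ ∞ := measure_closedBall_lt_top.ne
  set p : ℝ := 1 + (q : ℝ) / c with hp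
  have hp0 : 0 < p := by positivity
  have hpq : p < (q : ℝ) + 1 := by
    have h1 : (q : ℝ) / c < q := div_lt_self hq0 hc
    rw [hp]; linarith
  set s : ℝ := ((q : ℝ) + 1) / p with hs
  have hs1 : 1 < s := by rw [hs, lt_div_iff₀ hp0]; linarith
  have hs0 : 0 < s := by linarith
  have hsp : s * p = (q : ℝ) + 1 := by rw [hs, div_mul_cancel₀ _ hp0.ne']
  refine ⟨2 ^ (q + 1) * (V.toReal + 1) ^ (q + 1) * C, by positivity, ?_⟩
  intro δ a hδ hδ1 ha f hf
  set G : E (q + 1) → ℝ≥0∞ := fun x => (⨆ k : ℤ, wav δ a k f x) ^ (q + 1) with hG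
  have hGm : Measurable G := by
    apply Measurable.pow_const
    apply Measurable.iSup
    intro k
    have h0 : Measurable (Function.uncurry (fun (_ : ℝ) (y : E (q + 1)) => f y)) :=
      hf.comp measurable_snd
    have h1 : Measurable (fun x : ℝ × E (q + 1) => wav δ a k f x.2) :=
      measurable_wav (δ := δ) ha k h0
    exact h1.comp (measurable_prodMk_left (x := (0:ℝ)))
  have hpt : ∀ e : sphere (0 : E (q + 1)) 1, G e ≤
      V ^ (q + 1) * kmax δ (fun y => f y ^ s) (e : E (q + 1)) ^ p := by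
    intro e
    have he : ‖(e : E (q + 1))‖ = 1 := by simp
    have h1 := wav_le_kmax hδ a f he
    have h2 := kmax_rpow hδ hf he hs1
    calc G e ≤ (V * kmax δ f (e : E (q + 1))) ^ (q + 1) := pow_le_pow_left' h1 _
      _ = V ^ (q + 1) * kmax δ f (e : E (q + 1)) ^ (q + 1) := mul_pow _ _ _
      _ ≤ V ^ (q + 1) * (kmax δ (fun y => f y ^ s) (e : E (q + 1)) ^ (1 / s)) ^ (q + 1) := by
          gcongr
      _ = V ^ (q + 1) * kmax δ (fun y => f y ^ s) (e : E (q + 1)) ^ p := by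
          congr 1
          rw [← ENNReal.rpow_natCast, ← ENNReal.rpow_mul]
          congr 1
          push_cast
          rw [← hsp]
          field_simp
  have hVle : V ≤ ENNReal.ofReal (V.toReal + 1) := by
    calc V = ENNReal.ofReal V.toReal := (ENNReal.ofReal_toReal hVt).symm
      _ ≤ _ := ENNReal.ofReal_le_ofReal (by linarith)
  have hSf := hS δ hδ hδ1 (fun y => f y ^ s) (hf.pow_const s).aemeasurable
  have hfs : ∀ y, (f y ^ s) ^ p = f y ^ (q + 1) := by
    intro y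
    rw [← ENNReal.rpow_mul, hsp, ← ENNReal.rpow_natCast]
    congr 1
    push_cast
    ring
  simp only [hfs] at hSf
  calc ∫⁻ x in closedBall (0 : E (q + 1)) 1, (⨆ k : ℤ, wav δ a k f (‖x‖⁻¹ • x)) ^ (q + 1)
      ≤ ENNReal.ofReal (2 ^ (q + 1)) *
        ∫⁻ e : sphere (0 : E (q + 1)) 1, G e ∂(volume : Measure (E (q + 1))).toSphere :=
        ball_le_sphere q hGm
    _ ≤ ENNReal.ofReal (2 ^ (q + 1)) * ∫⁻ e : sphere (0 : E (q + 1)) 1,
          V ^ (q + 1) * kmax δ (fun y => f y ^ s) (e : E (q + 1)) ^ p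
          ∂(volume : Measure (E (q + 1))).toSphere := by
        gcongr with e
        exact hpt e
    _ = ENNReal.ofReal (2 ^ (q + 1)) * (V ^ (q + 1) * ∫⁻ e : sphere (0 : E (q + 1)) 1,
          kmax δ (fun y => f y ^ s) (e : E (q + 1)) ^ p
          ∂(volume : Measure (E (q + 1))).toSphere) := by
        rw [lintegral_const_mul' _ _ (ENNReal.pow_ne_top hVt)]
    _ ≤ ENNReal.ofReal (2 ^ (q + 1)) * (ENNReal.ofReal (V.toReal + 1) ^ (q + 1) *
          (ENNReal.ofReal (C * δ ^ (-((q : ℝ) - (q : ℝ) / c))) * ∫⁻ y, f y ^ (q + 1))) := by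
        gcongr
    _ = _ := by
        rw [← ENNReal.ofReal_pow (by positivity), ← mul_assoc, ← mul_assoc,
          ← ENNReal.ofReal_mul (by positivity), ← ENNReal.ofReal_mul (by positivity)]
        congr 2
        ring

end Pool.Agent.U527.Rd
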