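import Pool.Agent.U527.Rd.Ind
import Pool.Agent.Y254.HK.FinalG
import Pool.Agent.U527.Rd.TrR

set_option autoImplicit false

/-!
# Kakeya estimates for families of lines reducible to a smaller dimension: dimension
-/

open MeasureTheory Set Filter Topology ENNReal NNReal Metric

namespace Pool.Agent.U527.Rd

open Pool.Agent.H742R2.Kk
open Pool.Agent.Y245.Tr (tube av)

/-- The hybrid range. -/
theorem loss_hybrid {q : ℕ} (hq : 9 ≤ q) {x c : ℝ} (h : Pool.Agent.Y254HK.Cd q x c) :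
    LossLE q ((q : ℝ) - q / c) := by
  intro ε hε
  obtain ⟨C, hC, h⟩ := kb_base (by omega) h.c1 (Pool.Agent.Y254HK.max_mix hq h).2
  refine ⟨C, hC, ?_⟩
  intro δ a hδ hδ1 ha
  refine KB.mono (h δ a hδ hδ1 ha) (ENNReal.ofReal_le_ofReal ?_)
  have h1 : (1 : ℝ) ≤ δ⁻¹ := (one_le_inv₀ hδ).2 hδ1.le
  have h2 : δ ^ (-((q : ℝ) - q / c)) = δ⁻¹ ^ ((q : ℝ) - q / c) := by
    rw [Real.rpow_neg hδ.le, Real.inv_rpow hδ.le]
  rw [h2]
  exact mul_le_mul_of_nonneg_left (Real.rpow_le_rpow_of_exponent_le h1 (by linarith)) hC.le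

theorem tube_subset {n : ℕ} (δ : ℝ) (e b : E n) (he : ‖e‖ = 1) (s : ℝ) :
    tube δ e (b + s • e) ⊆ tub δ e b ⌊inner ℝ (b + s • e) e - 1/2⌋
      ∪ tub δ e b (⌊inner ℝ (b + s • e) e - 1/2⌋ + 1) := by
  rintro y ⟨h1, h2⟩
  set c := b + s • e with hc
  have hf1 := Int.floor_le (inner ℝ c e - 1/2)
  have hf2 := Int.lt_floor_add_one (inner ℝ c e - 1/2)
  set k := ⌊inner ℝ c e - 1/2⌋ with hk
  have h3 : (y - b) - (inner ℝ (y - b) e : ℝ) • e = (y - c) - (inner ℝ (y - c) e : ℝ) • e := by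
    have h4 : y - b = (y - c) + s • e := by rw [hc]; abel
    rw [h4, inner_add_left, inner_smul_left, real_inner_self_eq_norm_sq, he]
    simp only [conj_trivial, one_pow, mul_one, add_smul]
    abel
  rw [inner_sub_left, abs_le] at h1
  by_cases h5 : inner ℝ y e ≤ (k:ℝ) + 1
  · left
    refine ⟨by linarith, h5, ?_⟩
    rw [h3, inner_sub_left]; rw [inner_sub_left] at h2; exact h2
  · right
    push Not at h5
    refine ⟨by push_cast; linarith, by push_cast; linarith, ?_⟩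
    rw [h3, inner_sub_left]; rw [inner_sub_left] at h2; exact h2

theorem measurable_sup_wav {m : ℕ} {δ : ℝ} {a : E (m + 1) → E (m + 1)} (ha : Measurable a)
    {f : E (m + 1) → ℝ≥0∞} (hf : Measurable f) :
    Measurable (fun x : E (m + 1) => ⨆ k : ℤ, wav δ a k f x) := by
  apply Measurable.iSup
  intro k
  have h0 : Measurable (Function.uncurry (fun (_ : ℝ) (y : E (m + 1)) => f y)) :=
    hf.comp measurable_snd
  have h1 : Measurable (fun x : ℝ × E (m + 1) => wav δ a k f x.2) :=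
    measurable_wav (δ := δ) ha k h0
  exact h1.comp (measurable_prodMk_left (x := (0:ℝ)))

theorem wav_ind {m : ℕ} {δ : ℝ} (hδ : 0 < δ) (a : E (m + 1) → E (m + 1)) {F : Set (E (m + 1))}
    (hF : MeasurableSet F) (e : E (m + 1)) (k : ℤ) :
    volume (F ∩ tub δ e (a e) k) =
      ENNReal.ofReal δ ^ m * wav δ a k (F.indicator 1) e := by
  have hD0 : ENNReal.ofReal δ ^ m ≠ 0 := pow_ne_zero _ (by simpa using hδ)
  have hDt : ENNReal.ofReal δ ^ m ≠ ∞ := ENNReal.pow_ne_top ENNReal.ofReal_ne_top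
  unfold wav
  rw [← mul_assoc, ENNReal.mul_inv_cancel hD0 hDt, one_mul, lintegral_indicator_one hF,
    Measure.restrict_apply hF]

/-- The maximal function over the tubes of a family of lines. -/
theorem av_le_wav {m : ℕ} {δ : ℝ} (hδ : 0 < δ) (a : E (m + 1) → E (m + 1)) {F : Set (E (m + 1))}
    (hF : MeasurableSet F) {e : E (m + 1)} (he : ‖e‖ = 1) (t : ℝ) :
    av δ F e (a e + t • e) ≤ 2 * ⨆ k : ℤ, wav δ a k (F.indicator 1) e := by
  have hD0 : ENNReal.ofReal δ ^ m ≠ 0 := pow_ne_zero _ (by simpa using hδ)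
  have hDt : ENNReal.ofReal δ ^ m ≠ ∞ := ENNReal.pow_ne_top ENNReal.ofReal_ne_top
  set M := ⨆ k : ℤ, wav δ a k (F.indicator 1) e with hM
  have h1 : ∀ k : ℤ, volume (F ∩ tub δ e (a e) k) ≤ ENNReal.ofReal δ ^ m * M := by
    intro k
    rw [wav_ind hδ a hF]
    gcongr
    exact le_iSup (fun k : ℤ => wav δ a k (F.indicator 1) e) k
  unfold av
  calc (ENNReal.ofReal δ ^ m)⁻¹ * volume (F ∩ tube δ e (a e + t • e))
      ≤ (ENNReal.ofReal δ ^ m)⁻¹ * (ENNReal.ofReal δ ^ m * M + ENNReal.ofReal δ ^ m * M) := by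
        gcongr
        refine (measure_mono (inter_subset_inter_right F (tube_subset δ e (a e) he t))).trans ?_
        rw [inter_union_distrib_left]
        exact (measure_union_le _ _).trans (add_le_add (h1 _) (h1 _))
    _ = 2 * ((ENNReal.ofReal δ ^ m)⁻¹ * ENNReal.ofReal δ ^ m) * M := by ring
    _ = 2 * M := by rw [ENNReal.inv_mul_cancel hD0 hDt, mul_one]

theorem lint_ind {m : ℕ} {F : Set (E (m + 1))} (hF : MeasurableSet F) :
    ∫⁻ p, (F.indicator 1 : E (m + 1) → ℝ≥0∞) p ^ (m + 1) = volume F := by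
  have h : ∀ p, (F.indicator 1 : E (m + 1) → ℝ≥0∞) p ^ (m + 1) =
      (F.indicator 1 : E (m + 1) → ℝ≥0∞) p := by
    intro p
    by_cases hp : p ∈ F
    · simp [hp]
    · simp [hp]
  simp_rw [h]
  exact lintegral_indicator_one hF

theorem maxHyp_of_kb {m : ℕ} {η ε A : ℝ} (hA : 0 < A) {a : E (m + 1) → E (m + 1)}
    (ha : Measurable a) (hK : ∀ δ : ℝ, 0 < δ → δ < 1 →
      KB m δ a (ENNReal.ofReal (A * δ⁻¹ ^ (η + ε)))) (S : Set (sphere (0 : E (m + 1)) 1))
    (T : Set ℝ) :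
    MaxHypA m (m + 1) η ε (2 ^ (m + 1) * ((m + 1) * A)) T S (fun e => a e) := by
  intro j F hF
  set δ : ℝ := (1 / 2) ^ (j + 1) with hδd
  have hδ : 0 < δ := by positivity
  have hδ1 : δ < 1 := pow_lt_one₀ (by norm_num) (by norm_num) (by omega)
  have hinv : δ⁻¹ = (2:ℝ) ^ (j + 1) := by
    rw [hδd, one_div, inv_pow, inv_inv]
  have hfm : Measurable (F.indicator 1 : E (m + 1) → ℝ≥0∞) := measurable_one.indicator hF
  set G : E (m + 1) → ℝ≥0∞ := fun x => (⨆ k : ℤ, wav δ a k (F.indicator 1) x) ^ (m + 1) with hG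
  have hGm : Measurable G := (measurable_sup_wav ha hfm).pow_const _
  refine ⟨fun e => 2 ^ (m + 1) * G e, (hGm.comp measurable_subtype_coe).const_mul _, ?_, ?_⟩
  · intro e _ t _
    show av δ F e (a e + t • (e : E (m + 1))) ^ (m + 1) ≤ 2 ^ (m + 1) * G e
    rw [hG, ← mul_pow]
    exact pow_le_pow_left' (av_le_wav hδ a hF (by simp) t) _
  · have h2 : ENNReal.ofReal ((2 : ℝ) ^ (m + 1)) = 2 ^ (m + 1) := by
      rw [ENNReal.ofReal_pow (by norm_num)]; norm_num
    have e2 : ENNReal.ofReal ((m:ℝ) + 1) = (m:ℝ≥0∞) + 1 := by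
      rw [ENNReal.ofReal_add (by positivity) (by norm_num)]
      simp
    calc ∫⁻ e : sphere (0 : E (m + 1)) 1, 2 ^ (m + 1) * G e
          ∂(volume : Measure (E (m + 1))).toSphere
        = 2 ^ (m + 1) * ∫⁻ e : sphere (0 : E (m + 1)) 1, G e
          ∂(volume : Measure (E (m + 1))).toSphere := by
          rw [lintegral_const_mul' _ _ (ENNReal.pow_ne_top (by norm_num))]
      _ ≤ 2 ^ (m + 1) * ((m + 1) * (ENNReal.ofReal (A * δ⁻¹ ^ (η + ε)) * volume F)) := by
          gcongr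
          refine (sphere_le_ball m hGm).trans ?_
          gcongr
          have := hK δ hδ hδ1 _ hfm
          rwa [lint_ind hF] at this
      _ = _ := by
          rw [hinv]
          have e1 : 2 ^ (m + 1) * (((m:ℝ) + 1) * A) * ((2:ℝ) ^ (j + 1)) ^ (η + ε)
            = 2 ^ (m + 1) * (((m:ℝ) + 1) * (A * ((2:ℝ) ^ (j + 1)) ^ (η + ε))) := by ring
          rw [e1, ENNReal.ofReal_mul (p := (2:ℝ) ^ (m + 1)) (by positivity),
            ENNReal.ofReal_mul (p := (m:ℝ) + 1) (by positivity), h2, e2]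
          ring

/-- The hypothesis of the transfer, for reducible families. -/
theorem maxHyp_red {q m : ℕ} (hqm : q ≤ m) {η : ℝ} (hη : LossLE q η) {ε : ℝ} (hε : 0 < ε) :
    ∃ A : ℝ, 0 < A ∧ ∀ a : E (m + 1) → E (m + 1), RedTo q m a →
    ∀ (S : Set (sphere (0 : E (m + 1)) 1)) (T : Set ℝ),
      MaxHypA m (m + 1) η ε A T S (fun e => a e) := by
  obtain ⟨A, hA, h⟩ := kb_loss hη m hqm hε
  exact ⟨2 ^ (m + 1) * ((m + 1) * A), by positivity, fun a ha S T =>
    maxHyp_of_kb hA ha.measurable (fun δ hδ hδ1 => h δ a hδ hδ1 ha) S T⟩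

/-- Dimension, for reducible families. -/
theorem dim_red {q m : ℕ} (hqm : q ≤ m) {η : ℝ} (hη : LossLE q η) {a : E (m + 1) → E (m + 1)}
    (ha : RedTo q m a) {S : Set (sphere (0 : E (m + 1)) 1)}
    (hS : (volume : Measure (E (m + 1))).toSphere S ≠ 0) {K : Set (E (m + 1))}
    (hK : ∀ e ∈ S, volume {t : ℝ | a e + t • (e : E (m + 1)) ∈ K} ≠ 0) :
    ENNReal.ofReal ((m:ℝ) + 1 - η) ≤ dimH K := by
  refine dim_geT (p := m + 1) hS (a := fun e => a e) ?_ hK
  intro N ε hε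
  obtain ⟨A, hA, h⟩ := maxHyp_red hqm hη hε
  exact ⟨A, hA, h a ha S _⟩

end Pool.Agent.U527.Rd
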