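import Pool.Agent.U527.Rd.TrR
import Pool.Agent.U527.Rd.Base

set_option autoImplicit false

/-!
# Unit segments: content and neighbourhoods
-/

open MeasureTheory Set Filter Topology ENNReal NNReal Metric

namespace Pool.Agent.U527.Rd

open Pool.Agent.H742R2.Kk
open Pool.Agent.Y245.Tr (tube av)

theorem seg_window {m : ℕ} {a e : E (m + 1)} {K : Set (E (m + 1))} {t : ℝ}
    (h : ∀ u : ℝ, |u| ≤ 1 / 2 → a + (t + u) • e ∈ K) :
    ∃ k : ℤ, |((k : ℝ) + 1 / 2 - inner ℝ a e) - t| ≤ 1 / 2 ∧ ENNReal.ofReal (1 / 2) ≤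
      volume ({u : ℝ | a + (u - inner ℝ a e : ℝ) • e ∈ K} ∩ Icc (k : ℝ) (k + 1)) := by
  set u₀ : ℝ := inner ℝ a e + t - 1 / 2 with hu₀
  have hf1 := Int.floor_le (u₀ + 1 / 2)
  have hf2 := Int.lt_floor_add_one (u₀ + 1 / 2)
  set k : ℤ := ⌊u₀ + 1 / 2⌋ with hk
  refine ⟨k, ?_, ?_⟩
  · rw [abs_le]; constructor <;> linarith
  · have hsub : Icc (max u₀ k) (min (u₀ + 1) (k + 1)) ⊆
        {u : ℝ | a + (u - inner ℝ a e : ℝ) • e ∈ K} ∩ Icc (k : ℝ) (k + 1) := by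
      rintro u ⟨h1, h2⟩
      have h3 := (le_max_left _ _).trans h1
      have h4 := (le_max_right _ _).trans h1
      have h5 := h2.trans (min_le_left _ _)
      have h6 := h2.trans (min_le_right _ _)
      refine ⟨?_, h4, h6⟩
      have h7 := h (u - inner ℝ a e - t) (by rw [abs_le]; constructor <;> linarith)
      rw [mem_ofPred_eq]
      convert h7 using 3
      ring
    refine le_trans ?_ (measure_mono hsub)
    rw [Real.volume_Icc]
    apply ENNReal.ofReal_le_ofReal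
    rcases le_total u₀ k with h1 | h1
    · rw [max_eq_right h1]
      rcases le_total (u₀ + 1) (k + 1) with h2 | h2
      · rw [min_eq_left h2]; linarith
      · rw [min_eq_right h2]; linarith
    · rw [max_eq_left h1]
      rcases le_total (u₀ + 1) (k + 1) with h2 | h2
      · rw [min_eq_left h2]; linarith
      · rw [min_eq_right h2]; linarith

/-- Lower bound for neighbourhoods. -/
theorem nbhdT {m p : ℕ} {η ε A₀ : ℝ} (hηε : 0 ≤ η + ε) (hA₀ : 0 < A₀) :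
    ∃ c : ℝ, 0 < c ∧ ∀ (T : Set ℝ) (S : Set (sphere (0 : E (m + 1)) 1))
      (a : sphere (0 : E (m + 1)) 1 → E (m + 1)), MaxHypA m p η ε A₀ T S a →
      ∀ K : Set (E (m + 1)),
      (∀ e ∈ S, ∃ t ∈ T, ∀ u : ℝ, |u| ≤ 1 / 2 → a e + (t + u) • (e : E (m + 1)) ∈ K) →
      ∀ δ : ℝ, 0 < δ → δ < 1 →
      ENNReal.ofReal (c * δ ^ (η + ε)) * (volume : Measure (E (m + 1))).toSphere S ≤
        volume (thickening δ K) := by
  set v : ℝ≥0∞ := volume (closedBall (0 : E m) 1) with hv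
  have hv0 : v ≠ 0 := (measure_closedBall_pos _ _ one_pos).ne'
  have hvt : v ≠ ∞ := measure_closedBall_lt_top.ne
  have hv' : 0 < v.toReal := ENNReal.toReal_pos hv0 hvt
  refine ⟨v.toReal ^ p / (A₀ * 2 ^ (η + ε)), by positivity, ?_⟩
  intro T S a hmx K hK δ hδ hδ1
  obtain ⟨j, hj1, hj2⟩ := exists_nat_pow_near_of_lt_one hδ hδ1.le
    (by norm_num : (0 : ℝ) < 1 / 2) (by norm_num)
  set ρ : ℝ := (1 / 2) ^ (j + 1) with hρ
  have hρ0 : 0 < ρ := by positivity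
  obtain ⟨G, hG, hpt, hint⟩ := hmx j (thickening δ K) isOpen_thickening.measurableSet
  have hE0 : ENNReal.ofReal ρ ^ m ≠ 0 := pow_ne_zero _ (by simpa using hρ0)
  have hEt : ENNReal.ofReal ρ ^ m ≠ ∞ := ENNReal.pow_ne_top ENNReal.ofReal_ne_top
  have h1 : ∀ e ∈ S, v ^ p ≤ G e := by
    intro e he
    obtain ⟨t, ht, hu⟩ := hK e he
    refine le_trans ?_ (hpt e he t ht)
    refine pow_le_pow_left' ?_ p
    have hsub : tube ρ (e : E (m + 1)) (a e + t • (e : E (m + 1))) ⊆ thickening δ K := by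
      rintro y ⟨hy1, hy2⟩
      rw [mem_thickening_iff]
      refine ⟨_, hu _ hy1, ?_⟩
      rw [dist_eq_norm]
      refine lt_of_le_of_lt (le_of_eq_of_le ?_ hy2) hj1
      congr 1
      module
    unfold av
    rw [inter_eq_self_of_subset_right hsub]
    have h2 : volume (tube ρ (e : E (m + 1)) (a e + t • (e : E (m + 1)))) =
        ENNReal.ofReal ρ ^ m * v := volume_tube_eq hρ0 _ _ (by simp)
    rw [h2, ← mul_assoc, ENNReal.inv_mul_cancel hE0 hEt, one_mul]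
  have h2 : v ^ p * (volume : Measure (E (m + 1))).toSphere S ≤
      ENNReal.ofReal (A₀ * ((2:ℝ) ^ (j + 1)) ^ (η + ε)) * volume (thickening δ K) := by
    refine le_trans ?_ hint
    refine le_trans ?_ (mul_meas_ge_le_lintegral (μ := (volume : Measure (E (m + 1))).toSphere)
      hG (v ^ p))
    gcongr
    exact fun e he => h1 e he
  have h3 : (2:ℝ) ^ (j + 1) ≤ 2 * δ⁻¹ := by
    have h4 : (2:ℝ) ^ j ≤ δ⁻¹ := by
      rw [le_inv_comm₀ (by positivity) hδ]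
      have : ((2:ℝ) ^ j)⁻¹ = (1 / 2) ^ j := by rw [one_div, inv_pow]
      rw [this]
      exact hj2
    rw [pow_succ]; linarith
  have h4 : ((2:ℝ) ^ (j + 1)) ^ (η + ε) ≤ 2 ^ (η + ε) * δ⁻¹ ^ (η + ε) := by
    rw [← Real.mul_rpow (by norm_num) (by positivity)]
    exact Real.rpow_le_rpow (by positivity) h3 hηε
  have hX : 0 < A₀ * (2 ^ (η + ε) * δ⁻¹ ^ (η + ε)) := by positivity
  have h5 : v ^ p * (volume : Measure (E (m + 1))).toSphere S ≤
      ENNReal.ofReal (A₀ * (2 ^ (η + ε) * δ⁻¹ ^ (η + ε))) * volume (thickening δ K) := by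
    refine h2.trans ?_
    gcongr
  have h6 : ENNReal.ofReal (v.toReal ^ p / (A₀ * 2 ^ (η + ε)) * δ ^ (η + ε)) =
      (ENNReal.ofReal (A₀ * (2 ^ (η + ε) * δ⁻¹ ^ (η + ε))))⁻¹ * v ^ p := by
    rw [← ENNReal.ofReal_inv_of_pos hX]
    have e1 : v ^ p = ENNReal.ofReal (v.toReal ^ p) := by
      rw [ENNReal.ofReal_pow hv'.le, ENNReal.ofReal_toReal hvt]
    rw [e1, ← ENNReal.ofReal_mul (by positivity)]
    congr 1
    rw [Real.inv_rpow hδ.le]
    have : 0 < δ ^ (η + ε) := Real.rpow_pos_of_pos hδ _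
    field_simp
  have hX0 : ENNReal.ofReal (A₀ * (2 ^ (η + ε) * δ⁻¹ ^ (η + ε))) ≠ 0 := by simpa using hX
  rw [h6, mul_assoc]
  calc _ ≤ (ENNReal.ofReal (A₀ * (2 ^ (η + ε) * δ⁻¹ ^ (η + ε))))⁻¹ *
        (ENNReal.ofReal (A₀ * (2 ^ (η + ε) * δ⁻¹ ^ (η + ε))) * volume (thickening δ K)) := by
        gcongr
    _ = _ := by
        rw [← mul_assoc, ENNReal.inv_mul_cancel hX0 ENNReal.ofReal_ne_top, one_mul]

end Pool.Agent.U527.Rd
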