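import Pool.Agent.U527.Rd.Along
import Pool.Agent.U527.Rd.Seg

set_option autoImplicit false

/-!
# The planar case, and conclusions
-/

open MeasureTheory Set Filter Topology ENNReal NNReal Metric

namespace Pool.Agent.U527.Rd

open Pool.Agent.H742R2.Kk
open Pool.Agent.Y245.Tr (tube av)
open Pool.Agent.W46.HM (kmax)

theorem eq_e1_zero {e : E 1} (he : ‖e‖ = 1) (he0 : 0 < e 0) : e = ins 1 0 := by
  have h1 : ‖e‖ ^ 2 = e 0 ^ 2 := by
    rw [EuclideanSpace.norm_sq_eq]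
    simp
  rw [he] at h1
  have h3 : e 0 = 1 := by nlinarith
  ext i
  have hi : i = 0 := Subsingleton.elim _ _
  subst hi
  rw [h3]
  rfl

theorem reducible_two {a : E 2 → E 2} (ha : Measurable a) : Reducible 2 a := by
  refine ⟨ha, LinearIsometryEquiv.refl ℝ _, ?_⟩
  intro θ
  set p : E 2 := a (emb θ 0 (ins 1 0)) with hp
  refine ⟨-(p 0) * Real.sin θ + p 1 * Real.cos θ,
    fun _ => ins (p 0 * Real.cos θ + p 1 * Real.sin θ) 0, measurable_const, ?_⟩
  intro e he he0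
  refine ⟨0, ?_⟩
  have h1 := eq_e1_zero he he0
  subst h1
  rw [zero_smul, add_zero]
  simp only [LinearIsometryEquiv.coe_refl, id_eq]
  rw [← hp, emb_eq]
  have hsc := Real.sin_sq_add_cos_sq θ
  ext i
  fin_cases i
  · change p 0 = (ins _ _ : E 2) 0
    rw [ins_apply_zero]
    linear_combination (-(p 0)) * hsc
  · change p 1 = (ins _ _ : E 2) (Fin.succ 0)
    rw [ins_apply_succ, ins_apply_zero]
    linear_combination (-(p 1)) * hsc

theorem emb_surj {k : ℕ} (θ : ℝ) (x : E (k + 2)) : ∃ (β : ℝ) (p : E (k + 1)), emb θ β p = x := by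
  refine ⟨-(x 0) * Real.sin θ + x 1 * Real.cos θ,
    ins (x 0 * Real.cos θ + x 1 * Real.sin θ) (tl (tl x)), ?_⟩
  have hsc := Real.sin_sq_add_cos_sq θ
  ext i
  refine Fin.cases ?_ (fun i => ?_) i
  · simp only [emb, ins, Fin.cons_zero]
    linear_combination (x 0) * hsc
  · refine Fin.cases ?_ (fun i => ?_) i
    · change (ins _ _ : E (k + 2)) (Fin.succ 0) = x 1
      rw [ins_apply_succ, ins_apply_zero, ins_apply_zero]
      linear_combination (x 1) * hsc
    · simp [emb, ins, tl]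

/-- The lines through a fixed affine subspace. -/
theorem along_const {q : ℕ} (m : ℕ) (V : Submodule ℝ (E (m + 1))) (hV : Module.finrank ℝ V ≤ q)
    (c : E (m + 1)) : RedAlong q m V (fun _ => c) := by
  induction m with
  | zero => exact measurable_const
  | succ k ih =>
    refine ⟨measurable_const, fun hq => ?_⟩
    obtain ⟨U, hU⟩ := exists_isom V (le_trans hV (by omega))
    refine ⟨U, hU, fun θ => ?_⟩
    obtain ⟨β, p, hp⟩ := emb_surj θ (U.symm c)
    refine ⟨β, fun _ => p, ?_, ?_⟩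
    · refine (ih _ (le_trans (Submodule.finrank_map_le (dropMap U) V) hV) p).mono ?_
      intro w hw
      have hwV : U (emb θ 0 w) ∈ V := hw
      obtain ⟨g0, g1⟩ := hU _ hwV
      rw [LinearIsometryEquiv.symm_apply_apply] at g0 g1
      refine ⟨U (emb θ 0 w), hwV, ?_⟩
      have h0 : w 0 * Real.cos θ = 0 := by
        have : (emb θ 0 w) 0 = w 0 * Real.cos θ - 0 * Real.sin θ := by
          simp [emb, ins]
        rw [this] at g0
        linarith
      have h1 : w 0 * Real.sin θ = 0 := by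
        have : (emb θ 0 w) 1 = w 0 * Real.sin θ + 0 * Real.cos θ := by
          change (ins _ _ : E (k + 2)) (Fin.succ 0) = _
          rw [ins_apply_succ, ins_apply_zero]
        rw [this] at g1
        linarith
      have h2 : w 0 = 0 := by
        have hsc := Real.sin_sq_add_cos_sq θ
        have : w 0 * (Real.sin θ ^ 2 + Real.cos θ ^ 2) = 0 := by
          linear_combination (Real.cos θ) * h0 + (Real.sin θ) * h1
        rwa [hsc, mul_one] at this
      show ins 0 (tl (tl (U.symm (U (emb θ 0 w))))) = w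
      rw [LinearIsometryEquiv.symm_apply_apply]
      ext i
      refine Fin.cases ?_ (fun i => ?_) i
      · simp [ins, h2]
      · simp [emb, ins, tl]
    · intro e _ _
      refine ⟨0, ?_⟩
      rw [zero_smul, add_zero, hp, LinearIsometryEquiv.apply_symm_apply]

/-- The plane. -/
theorem loss_planar : LossLE 1 0 := by
  intro ε hε
  obtain ⟨C, hC, hP⟩ := planar
  obtain ⟨D, hD, hK⟩ := kb_all hC hP 1
  refine ⟨D * (1 + 1 / ε), by positivity, ?_⟩
  intro δ a hδ hδ1 ha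
  refine KB.mono (hK δ a hδ hδ1 (reducible_two ha)) (ENNReal.ofReal_le_ofReal ?_)
  have h1 : (1 : ℝ) ≤ δ⁻¹ := (one_le_inv₀ hδ).2 hδ1.le
  have h0 : (0 : ℝ) < δ⁻¹ := by linarith
  have h2 : Real.log (1 / δ) ≤ δ⁻¹ ^ ε / ε := by
    rw [one_div]
    exact Real.log_le_rpow_div h0.le hε
  have h3 : 1 ≤ δ⁻¹ ^ ε := Real.one_le_rpow h1 hε.le
  rw [pow_one, zero_add, mul_assoc]
  apply mul_le_mul_of_nonneg_left _ hD.le
  calc 1 + Real.log (1 / δ) ≤ δ⁻¹ ^ ε + δ⁻¹ ^ ε / ε := by linarith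
    _ = (1 + 1 / ε) * δ⁻¹ ^ ε := by ring

/-- From the maximal function in dimension `q + 1`. -/
theorem loss_of_max {q : ℕ} {η : ℝ} (h : ∀ ε : ℝ, 0 < ε → ∃ C : ℝ, 0 < C ∧
    ∀ (δ : ℝ) (f : E (q + 1) → ℝ≥0∞), 0 < δ → δ < 1 → Measurable f →
      ∫⁻ e : sphere (0 : E (q + 1)) 1, kmax δ f (e : E (q + 1)) ^ (q + 1)
          ∂(volume : Measure (E (q + 1))).toSphere ≤
        ENNReal.ofReal (C * δ⁻¹ ^ (η + ε)) * ∫⁻ y, f y ^ (q + 1)) : LossLE q η := by
  intro ε hε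
  obtain ⟨C, hC, hS⟩ := h ε hε
  set V : ℝ≥0∞ := volume (closedBall (0 : E q) 1) with hV
  have hVt : V ≠ ∞ := measure_closedBall_lt_top.ne
  refine ⟨2 ^ (q + 1) * (V.toReal + 1) ^ (q + 1) * C, by positivity, ?_⟩
  intro δ a hδ hδ1 ha f hf
  set G : E (q + 1) → ℝ≥0∞ := fun x => (⨆ k : ℤ, wav δ a k f x) ^ (q + 1) with hG
  have hGm : Measurable G := (measurable_sup_wav ha hf).pow_const _
  have hpt : ∀ e : sphere (0 : E (q + 1)) 1, G e ≤
      V ^ (q + 1) * kmax δ f (e : E (q + 1)) ^ (q + 1) := by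
    intro e
    rw [← mul_pow]
    exact pow_le_pow_left' (wav_le_kmax hδ a f (by simp)) _
  have hVle : V ≤ ENNReal.ofReal (V.toReal + 1) := by
    calc V = ENNReal.ofReal V.toReal := (ENNReal.ofReal_toReal hVt).symm
      _ ≤ _ := ENNReal.ofReal_le_ofReal (by linarith)
  have hSf := hS δ f hδ hδ1 hf
  calc ∫⁻ x in closedBall (0 : E (q + 1)) 1, (⨆ k : ℤ, wav δ a k f (‖x‖⁻¹ • x)) ^ (q + 1)
      ≤ ENNReal.ofReal (2 ^ (q + 1)) *
        ∫⁻ e : sphere (0 : E (q + 1)) 1, G e ∂(volume : Measure (E (q + 1))).toSphere :=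
        ball_le_sphere q hGm
    _ ≤ ENNReal.ofReal (2 ^ (q + 1)) * ∫⁻ e : sphere (0 : E (q + 1)) 1,
          V ^ (q + 1) * kmax δ f (e : E (q + 1)) ^ (q + 1)
          ∂(volume : Measure (E (q + 1))).toSphere := by
        gcongr with e
        exact hpt e
    _ = ENNReal.ofReal (2 ^ (q + 1)) * (V ^ (q + 1) * ∫⁻ e : sphere (0 : E (q + 1)) 1,
          kmax δ f (e : E (q + 1)) ^ (q + 1)
          ∂(volume : Measure (E (q + 1))).toSphere) := by
        rw [lintegral_const_mul' _ _ (ENNReal.pow_ne_top hVt)]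
    _ ≤ ENNReal.ofReal (2 ^ (q + 1)) * (ENNReal.ofReal (V.toReal + 1) ^ (q + 1) *
          (ENNReal.ofReal (C * δ⁻¹ ^ (η + ε)) * ∫⁻ y, f y ^ (q + 1))) := by
        gcongr
    _ = _ := by
        rw [← ENNReal.ofReal_pow (by positivity), ← mul_assoc, ← mul_assoc,
          ← ENNReal.ofReal_mul (by positivity), ← ENNReal.ofReal_mul (by positivity)]
        congr 2
        ring

/-- Quantitative bounds: the conclusion for a family. -/
def Quant (m : ℕ) (κ s c : ℝ) (S : Set (sphere (0 : E (m + 1)) 1)) (K : Set (E (m + 1))) : Prop :=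
  (∀ δ : ℝ, 0 < δ → δ < 1 → ENNReal.ofReal (c * δ ^ κ) *
      (volume : Measure (E (m + 1))).toSphere S ≤ volume (thickening δ K)) ∧
  (∀ (x : ℕ → E (m + 1)) (ρ : ℕ → ℝ), (∀ i, 0 < ρ i ∧ ρ i ≤ 1 / 2) →
      K ⊆ ⋃ i, closedBall (x i) (ρ i) →
      ENNReal.ofReal c * (volume : Measure (E (m + 1))).toSphere S ≤
        ∑' i, ENNReal.ofReal (ρ i ^ s))

theorem quant_of {m p : ℕ} {η s A₀ ε : ℝ} (hs0 : 0 ≤ s) (hη : 0 ≤ η) (hs : s < (m:ℝ) + 1 - η)
    (hε : ε = ((m:ℝ) + 1 - η - s) / 2) (hA₀ : 0 < A₀) :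
    ∃ c : ℝ, 0 < c ∧ ∀ (T T' : Set ℝ) (S : Set (sphere (0 : E (m + 1)) 1))
      (a : sphere (0 : E (m + 1)) 1 → E (m + 1)), MaxHypA m p η ε A₀ T' S a →
      (∀ t ∈ T, ∀ t', |t' - t| ≤ 1 / 2 → t' ∈ T') → ∀ K : Set (E (m + 1)),
      (∀ e ∈ S, ∃ t ∈ T, ∀ u : ℝ, |u| ≤ 1 / 2 → a e + (t + u) • (e : E (m + 1)) ∈ K) →
      Quant m (η + ε) s c S K := by
  have hε0 : 0 < ε := by rw [hε]; linarith
  obtain ⟨c₁, hc₁, h₁⟩ := nbhdT (m := m) (p := p) (η := η) (ε := ε) (by linarith) hA₀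
  obtain ⟨C₂, hC₂, h₂⟩ := content2T (m := m) (p := p) (η := η) (s := s) (lam := 1 / 2) (ε := ε)
    (by norm_num) hs0 hs hε hA₀
  refine ⟨min c₁ C₂⁻¹, lt_min hc₁ (by positivity), ?_⟩
  intro T T' S a hmx hTT K hK
  refine ⟨?_, ?_⟩
  · intro δ hδ hδ1
    refine le_trans ?_ (h₁ T' S a hmx K ?_ δ hδ hδ1)
    · gcongr
      exact min_le_left _ _
    · intro e he
      obtain ⟨t, ht, hu⟩ := hK e he
      exact ⟨t, hTT t ht t (by simp), hu⟩
  · intro x ρ hρ hcov
    have h3 := h₂ T' S a hmx K ?_ x ρ hρ hcov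
    · calc ENNReal.ofReal (min c₁ C₂⁻¹) * (volume : Measure (E (m + 1))).toSphere S
          ≤ ENNReal.ofReal C₂⁻¹ * (ENNReal.ofReal C₂ * ∑' i, ENNReal.ofReal (ρ i ^ s)) := by
            gcongr
            exact min_le_right _ _
        _ = _ := by
            rw [← mul_assoc, ← ENNReal.ofReal_mul (by positivity), inv_mul_cancel₀ hC₂.ne',
              ENNReal.ofReal_one, one_mul]
    · intro e he
      obtain ⟨t, ht, hu⟩ := hK e he
      obtain ⟨k, hk1, hk2⟩ := seg_window hu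
      exact ⟨k, hTT t ht _ hk1, hk2⟩

end Pool.Agent.U527.Rd
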