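import Pool.Agent.U527.Rd.Base

set_option autoImplicit false

/-!
# Kakeya estimates for families of lines reducible to a smaller dimension: the induction
-/

open MeasureTheory Set Filter Topology ENNReal NNReal Metric

namespace Pool.Agent.U527.Rd

open Pool.Agent.H742R2.Kk

/-- If the estimate holds with the constant `A δ` for all measurable families in dimension `q + 1`,
then it holds for all families in dimension `m + 1` which are reducible to dimension `q + 1`, with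
the constant `A δ` times a power of the logarithm. -/
theorem kb_red {q : ℕ} {A : ℝ → ℝ} (hA0 : ∀ δ : ℝ, 0 < δ → 0 < A δ)
    (hA : ∀ (δ : ℝ) (a : E (q + 1) → E (q + 1)), 0 < δ → δ < 1 → Measurable a →
      KB q δ a (ENNReal.ofReal (A δ))) (m : ℕ) (hqm : q ≤ m) : ∃ D : ℝ, 0 < D ∧
    ∀ (δ : ℝ) (a : E (m + 1) → E (m + 1)), 0 < δ → δ < 1 → RedTo q m a →
      KB m δ a (ENNReal.ofReal (D * (1 + Real.log (1 / δ)) ^ (m - q) * A δ)) := by
  obtain ⟨C, hC, hP⟩ := planar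
  induction m, hqm using Nat.le_induction with
  | base =>
    refine ⟨1, one_pos, ?_⟩
    intro δ a hδ hδ1 ha
    have h := hA δ a hδ hδ1 ha.measurable
    simpa using h
  | succ m hqm ih =>
    obtain ⟨D, hD, hK⟩ := ih
    obtain ⟨D', hD', hstep⟩ := kb_step m hC hP
    refine ⟨D' * D, by positivity, ?_⟩
    intro δ a hδ hδ1 ha
    have hlog : 0 ≤ Real.log (1 / δ) := Real.log_nonneg (by rw [le_div_iff₀ hδ]; linarith)
    obtain ⟨ham, hU⟩ := ha
    obtain ⟨U, hU⟩ := hU (by omega)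
    have hcm : Measurable (fun e => U.symm (a (U e))) :=
      U.symm.continuous.measurable.comp (ham.comp U.continuous.measurable)
    have hA1 := hA0 δ hδ
    have h1 : KB (m+1) δ (fun e => U.symm (a (U e)))
        (ENNReal.ofReal (D' * (1 + Real.log (1 / δ))) *
          ENNReal.ofReal (D * (1 + Real.log (1 / δ)) ^ (m - q) * A δ)) := by
      apply hstep δ _ _ hδ hδ1 hcm
      · have : 0 < D * (1 + Real.log (1 / δ)) ^ (m - q) * A δ := by positivity
        simpa using this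
      · intro θ
        obtain ⟨β, a', hred, hl⟩ := hU θ
        refine ⟨β, a', hred.measurable, hK δ a' hδ hδ1 hred, ?_⟩
        intro e he he0
        obtain ⟨s, hs⟩ := hl e he he0
        refine ⟨s, ?_⟩
        rw [hs, LinearIsometryEquiv.symm_apply_apply]
    have h2 := kb_rot ham U h1
    rw [← ENNReal.ofReal_mul (by positivity)] at h2
    have h3 : D' * (1 + Real.log (1 / δ)) * (D * (1 + Real.log (1 / δ)) ^ (m - q) * A δ)
        = D' * D * (1 + Real.log (1 / δ)) ^ (m + 1 - q) * A δ := by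
      have e1 : m + 1 - q = (m - q) + 1 := by omega
      rw [e1, pow_succ]
      ring
    rwa [h3] at h2

/-- The loss exponent `η` of the Kakeya maximal function in dimension `q + 1`, at the exponent
`q + 1`, for measurable families of lines. -/
def LossLE (q : ℕ) (η : ℝ) : Prop := ∀ ε : ℝ, 0 < ε → ∃ A : ℝ, 0 < A ∧
  ∀ (δ : ℝ) (a : E (q + 1) → E (q + 1)), 0 < δ → δ < 1 → Measurable a →
    KB q δ a (ENNReal.ofReal (A * δ⁻¹ ^ (η + ε)))

theorem KB.mono {m : ℕ} {δ : ℝ} {a : E (m + 1) → E (m + 1)} {A B : ℝ≥0∞} (h : KB m δ a A)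
    (hAB : A ≤ B) : KB m δ a B := fun f hf => (h f hf).trans (mul_le_mul_left hAB _)

/-- The range of Wolff. -/
theorem loss_wolff {q : ℕ} (hq : 2 ≤ q) : LossLE q (((q : ℝ) - 1) / 2) := by
  intro ε hε
  have hq2 : (2 : ℝ) ≤ q := by exact_mod_cast hq
  have hq0 : (0 : ℝ) < q := by linarith
  -- choose the slope
  obtain ⟨c, hc1, hc2, hc3⟩ : ∃ c : ℝ, 1 < c ∧ 2 * (q : ℝ) / ((q : ℝ) + 1) < c ∧
      (q : ℝ) - q / c ≤ ((q : ℝ) - 1) / 2 + ε := by
    set c0 : ℝ := 2 * (q : ℝ) / ((q : ℝ) + 1) with hc0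
    have h1 : 1 < c0 := by rw [hc0, lt_div_iff₀ (by linarith)]; linarith
    refine ⟨c0 + ε / q, ?_, ?_, ?_⟩
    · have : 0 < ε / q := by positivity
      linarith
    · have : 0 < ε / q := by positivity
      linarith
    · have h2 : 0 < c0 + ε / q := by positivity
      have h3 : (q : ℝ) / c0 = ((q : ℝ) + 1) / 2 := by
        rw [hc0]
        field_simp
      have h4 : (q : ℝ) / c0 - q / (c0 + ε / q) ≤ ε := by
        rw [div_sub_div _ _ (by linarith) h2.ne', div_le_iff₀ (by positivity)]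
        have e1 : (q : ℝ) * (c0 + ε / q) - c0 * q = ε := by
          field_simp
          ring
        rw [e1]
        have h5 : 1 ≤ c0 * (c0 + ε / q) := by
          have : 0 < ε / q := by positivity
          nlinarith
        nlinarith
      have h5 : (q : ℝ) - ((q : ℝ) + 1) / 2 = ((q : ℝ) - 1) / 2 := by ring
      linarith
  obtain ⟨C, hC, h⟩ := kb_base (by omega) hc1 (Pool.Agent.Y244.WR.wolff_max hq hc2).2
  refine ⟨C, hC, ?_⟩
  intro δ a hδ hδ1 ha
  refine KB.mono (h δ a hδ hδ1 ha) (ENNReal.ofReal_le_ofReal ?_)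
  have h1 : (1 : ℝ) ≤ δ⁻¹ := (one_le_inv₀ hδ).2 hδ1.le
  have h2 : δ ^ (-((q : ℝ) - q / c)) = δ⁻¹ ^ ((q : ℝ) - q / c) := by
    rw [Real.rpow_neg hδ.le, Real.inv_rpow hδ.le]
  rw [h2]
  exact mul_le_mul_of_nonneg_left (Real.rpow_le_rpow_of_exponent_le h1 hc3) hC.le

/-- Reducible families. -/
theorem kb_loss {q : ℕ} {η : ℝ} (hη : LossLE q η) (m : ℕ) (hqm : q ≤ m) {ε : ℝ} (hε : 0 < ε) :
    ∃ A : ℝ, 0 < A ∧ ∀ (δ : ℝ) (a : E (m + 1) → E (m + 1)), 0 < δ → δ < 1 → RedTo q m a →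
      KB m δ a (ENNReal.ofReal (A * δ⁻¹ ^ (η + ε))) := by
  obtain ⟨A, hA, h⟩ := hη (ε / 2) (by positivity)
  obtain ⟨D, hD, h'⟩ := kb_red (A := fun δ => A * δ⁻¹ ^ (η + ε / 2))
    (fun δ hδ => mul_pos hA (Real.rpow_pos_of_pos (inv_pos.2 hδ) _)) h m hqm
  -- the logarithms
  set t : ℝ := ε / 2 / (m + 1) with ht
  have ht0 : 0 < t := by positivity
  refine ⟨D * (1 + 1 / t) ^ (m - q) * A, by positivity, ?_⟩
  intro δ a hδ hδ1 ha
  refine KB.mono (h' δ a hδ hδ1 ha) (ENNReal.ofReal_le_ofReal ?_)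
  have h1 : (1 : ℝ) ≤ δ⁻¹ := (one_le_inv₀ hδ).2 hδ1.le
  have h0 : (0 : ℝ) < δ⁻¹ := by linarith
  have hlog0 : 0 ≤ Real.log (1 / δ) := Real.log_nonneg (by rw [le_div_iff₀ hδ]; linarith)
  have hlog : 1 + Real.log (1 / δ) ≤ (1 + 1 / t) * δ⁻¹ ^ t := by
    have h2 : Real.log (1 / δ) ≤ δ⁻¹ ^ t / t := by
      rw [one_div]
      exact Real.log_le_rpow_div h0.le ht0
    have h3 : 1 ≤ δ⁻¹ ^ t := Real.one_le_rpow h1 ht0.le
    calc 1 + Real.log (1 / δ) ≤ δ⁻¹ ^ t + δ⁻¹ ^ t / t := by linarith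
      _ = (1 + 1 / t) * δ⁻¹ ^ t := by ring
  have h2 : (1 + Real.log (1 / δ)) ^ (m - q) ≤ (1 + 1 / t) ^ (m - q) * δ⁻¹ ^ (ε / 2) := by
    calc (1 + Real.log (1 / δ)) ^ (m - q) ≤ ((1 + 1 / t) * δ⁻¹ ^ t) ^ (m - q) := by
          apply pow_le_pow_left₀ (by linarith) hlog
      _ = (1 + 1 / t) ^ (m - q) * (δ⁻¹ ^ t) ^ (m - q) := mul_pow _ _ _
      _ ≤ _ := by
          gcongr
          rw [← Real.rpow_natCast, ← Real.rpow_mul h0.le]
          apply Real.rpow_le_rpow_of_exponent_le h1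
          have h3 : ((m - q : ℕ) : ℝ) ≤ (m : ℝ) + 1 := by
            have : m - q ≤ m := Nat.sub_le _ _
            have : ((m - q : ℕ) : ℝ) ≤ m := by exact_mod_cast this
            linarith
          calc t * ((m - q : ℕ) : ℝ) ≤ t * ((m : ℝ) + 1) := by gcongr
            _ = ε / 2 := by rw [ht]; field_simp
  have h3 : δ⁻¹ ^ (ε / 2) * δ⁻¹ ^ (η + ε / 2) = δ⁻¹ ^ (η + ε) := by
    rw [← Real.rpow_add h0]
    congr 1
    ring
  calc D * (1 + Real.log (1 / δ)) ^ (m - q) * (A * δ⁻¹ ^ (η + ε / 2))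
      ≤ D * ((1 + 1 / t) ^ (m - q) * δ⁻¹ ^ (ε / 2)) * (A * δ⁻¹ ^ (η + ε / 2)) := by gcongr
    _ = D * (1 + 1 / t) ^ (m - q) * A * (δ⁻¹ ^ (ε / 2) * δ⁻¹ ^ (η + ε / 2)) := by ring
    _ = _ := by rw [h3]

end Pool.Agent.U527.Rd
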